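import Pool.Agent.Lib.MP_efb7ef_gt.P3.Val

/-! A superadditive linear bound for the valuations of the values of a polynomial. -/

namespace Pool.Agent.Lib.MP_efb7ef_gt.P3

open Finset Polynomial

theorem window (A : ℕ → Prop) [DecidablePred A] {w r : ℕ} (hw : 0 < w) (h1 : ∀ n < w, ¬ A n)
    (h2 : ∀ j, #((Ico (w * j) (w * j + w)).filter A) ≤ r) :
    ∃ f : ℕ → ℕ, (∀ a b, f a + f b ≤ f (a + b)) ∧
      (∀ n, f n + (if A (n + 1) then 1 else 0) ≤ f (n + 1)) ∧ ∀ n, f n ≤ 2 * r * (n / w) := by
  set g : ℕ → ℕ := fun n => #((Icc (w * (n / w)) n).filter A) with hg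
  have g1 : ∀ n, g n ≤ r := fun n => (card_le_card (filter_subset_filter _ fun x hx => by
    have := Nat.lt_mul_div_succ n hw
    rw [mem_Icc] at hx
    rw [mem_Ico]
    rw [mul_add, mul_one] at this
    omega)).trans (h2 (n / w))
  have g2 : ∀ n, (if A n then 1 else 0) ≤ g n := fun n => by
    split_ifs with h
    · exact card_pos.2 ⟨n, mem_filter.2 ⟨mem_Icc.2 ⟨Nat.mul_div_le n w, le_rfl⟩, h⟩⟩
    · exact Nat.zero_le _
  have g3 : ∀ n, (n + 1) / w = n / w → g n + (if A (n + 1) then 1 else 0) ≤ g (n + 1) := by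
    intro n hn
    simp only [hg, hn]
    rw [← insert_Icc_right_eq_Icc_add_one ((Nat.mul_div_le n w).trans (Nat.le_succ n)),
      filter_insert]
    split_ifs
    · rw [card_insert_of_notMem (by simp)]
    · exact le_rfl
  set f : ℕ → ℕ := fun n => if n < w then 0 else 2 * r * (n / w - 1) + g n with hf
  have d1 : ∀ n, ¬ n < w → 1 ≤ n / w := fun n hn => Nat.div_pos (not_lt.1 hn) hw
  have f2 : ∀ n, f n + (if A (n + 1) then 1 else 0) ≤ f (n + 1) := by
    intro n
    simp only [hf]
    by_cases a : n + 1 < w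
    · rw [if_pos a, if_pos (by omega), if_neg (h1 _ a)]
    rw [if_neg a]
    have b := g2 (n + 1)
    by_cases a' : n < w
    · rw [if_pos a']; omega
    rw [if_neg a']
    by_cases e : (n + 1) / w = n / w
    · have := g3 n e
      rw [e]
      omega
    · have m : n / w ≤ (n + 1) / w := Nat.div_le_div_right (Nat.le_succ n)
      have := d1 n a'
      have := g1 n
      have : 2 * r * (n / w - 1 + 1) ≤ 2 * r * ((n + 1) / w - 1) :=
        Nat.mul_le_mul_left _ (by omega)
      rw [mul_add] at this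
      omega
  have mono : Monotone f := monotone_nat_of_le_succ fun n => le_trans (Nat.le_add_right _ _) (f2 n)
  refine ⟨f, fun a b => ?_, f2, fun n => ?_⟩
  · by_cases ha : a < w
    · rw [show f a = 0 from if_pos ha, zero_add]; exact mono (Nat.le_add_left _ _)
    by_cases hb : b < w
    · rw [show f b = 0 from if_pos hb, add_zero]; exact mono (Nat.le_add_right _ _)
    simp only [hf]
    rw [if_neg ha, if_neg hb, if_neg (by omega)]
    have := d1 a ha
    have := d1 b hb
    have := g1 a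
    have := g1 b
    have m : a / w + b / w ≤ (a + b) / w := Nat.div_add_div_le_add_div
    have : 2 * r * ((a / w - 1) + (b / w - 1) + 1) ≤ 2 * r * ((a + b) / w - 1) :=
      Nat.mul_le_mul_left _ (by omega)
    rw [mul_add, mul_add] at this
    omega
  · simp only [hf]
    split_ifs with a
    · exact Nat.zero_le _
    · have := d1 n a
      have := g1 n
      have : 2 * r * (n / w) = 2 * r * (n / w - 1 + 1) := by congr 1; omega
      rw [mul_add] at this
      omega

theorem val_lt {z : ℤ} {t : ℕ} (hz : z ≠ 0) (h : z.natAbs < 3 ^ t) : padicValInt 3 z < t := by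
  have := three
  exact (padicValNat_le_nat_log _).trans_lt (Nat.log_lt_of_lt_pow (by omega) h)

theorem val_small (L : ℚ[X]) : ∃ c : ℕ, ∀ t n : ℕ, n < 3 ^ t → L.eval (n : ℚ) ≠ 0 →
    padicValRat 3 (L.eval (n : ℚ)) < L.natDegree * t + c := by
  have := three
  obtain ⟨b, hb, hL⟩ := IsLocalization.integerNormalization_spec (nonZeroDivisors ℤ) L
  set Z := IsLocalization.integerNormalization (nonZeroDivisors ℤ) L
  have b0 : b ≠ 0 := nonZeroDivisors.ne_zero hb
  refine ⟨∑ i ∈ range (L.natDegree + 1), (Z.coeff i).natAbs, fun t n hn h0 => ?_⟩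
  set c := ∑ i ∈ range (L.natDegree + 1), (Z.coeff i).natAbs with hc
  set z : ℤ := ∑ i ∈ range (L.natDegree + 1), Z.coeff i * n ^ i with hz
  have e : (z : ℚ) = b * L.eval (n : ℚ) := by
    rw [hz, eval_eq_sum_range, mul_sum]
    push_cast
    refine sum_congr rfl fun i _ => ?_
    have : (Z.map (algebraMap ℤ ℚ)).coeff i = (b • L).coeff i := by rw [hL]
    rw [coeff_map, coeff_smul, eq_intCast, zsmul_eq_mul] at this
    rw [this, mul_assoc]
  have z0 : z ≠ 0 := by
    intro h
    rw [h] at e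
    exact mul_ne_zero (Int.cast_ne_zero.2 b0) h0 (by rw [← e, Int.cast_zero])
  have s : z.natAbs ≤ c * 3 ^ (L.natDegree * t) := by
    rw [hz, hc, sum_mul]
    refine (Int.natAbs_sum_le _ _).trans (sum_le_sum fun i hi => ?_)
    rw [Int.natAbs_mul, Int.natAbs_pow, Int.natAbs_natCast, mul_comm L.natDegree, pow_mul]
    exact Nat.mul_le_mul_left _ ((Nat.pow_le_pow_left hn.le _).trans
      (Nat.pow_le_pow_right (by positivity) (by have := mem_range.1 hi; omega)))
  have v := val_lt (t := L.natDegree * t + c) z0 (s.trans_lt (by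
    rw [pow_add, mul_comm]
    exact Nat.mul_lt_mul_of_pos_left (Nat.lt_pow_self (by norm_num)) (by positivity)))
  have w := padicValRat.mul (p := 3) (q := b) (Int.cast_ne_zero.2 b0) h0
  rw [← e, padicValRat.of_int, padicValRat.of_int] at w
  have v' : (padicValInt 3 z : ℤ) < L.natDegree * t + c := by exact_mod_cast v
  omega

theorem prod_val {ι : Type} [DecidableEq ι] {f : ι → ℚ} {t : ℤ} (s : Finset ι)
    (h : ∀ j ∈ s, ∃ m ≤ t, E2 (f j) m) : ∃ m ≤ #s * t, E2 (∏ j ∈ s, f j) m := by
  induction s using Finset.induction_on with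
  | empty => exact ⟨0, by simp, by simpa using E2.one⟩
  | insert a s ha ih =>
    obtain ⟨m, h1, h2⟩ := h a (mem_insert_self _ _)
    obtain ⟨m', h3, h4⟩ := ih fun j hj => h j (mem_insert_of_mem hj)
    refine ⟨m + m', ?_, by rw [prod_insert ha]; exact h2.mul h4⟩
    rw [card_insert_of_notMem ha]
    push_cast
    linarith

theorem val_close {L : ℚ[X]} (hL : L ≠ 0) {t j : ℕ} {s : Finset ℕ} (hs : #s = L.natDegree + 1)
    (hw : s ⊆ Ico (3 ^ t * j) (3 ^ t * j + 3 ^ t)) {m : ℤ}
    (h : ∀ x ∈ s, L.natDegree * t + m ≤ padicValRat 3 (L.eval (x : ℚ))) :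
    m ≤ padicValRat 3 L.leadingCoeff := by
  have e := Lagrange.leadingCoeff_eq_sum (s := s) (v := fun x : ℕ => (x : ℚ))
    (fun _ _ _ _ h => Nat.cast_injective h) (P := L) (by
      rw [degree_eq_natDegree hL, hs]; rfl)
  have g : G2 L.leadingCoeff (2 * m) := by
    rw [e]
    refine G2.sum fun x hx => ?_
    obtain ⟨u, h1, h2⟩ := prod_val (f := fun y : ℕ => (x : ℚ) - y) (t := 2 * t) (s.erase x)
      fun y hy => by
        obtain ⟨y1, y2⟩ := mem_erase.1 hy
        have a := mem_Ico.1 (hw hx)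
        have b := mem_Ico.1 (hw y2)
        have n0 : (x : ℤ) - y ≠ 0 := by omega
        have v := val_lt (t := t) n0 (by omega)
        have := E2.int n0
        push_cast at this
        exact ⟨_, by omega, this⟩
    rw [card_erase_of_mem hx, hs, Nat.add_sub_cancel] at h1
    have a : G2 (L.eval (x : ℚ)) (2 * (L.natDegree * t + m)) := Or.inr (by have := h x hx; omega)
    exact (a.div h2).mono (by linarith)
  have := g.resolve_left (leadingCoeff_ne_zero.2 hL)
  omega

theorem superadd {L : ℚ[X]} (h0 : ∀ n : ℕ, L.eval (n : ℚ) ≠ 0) :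
    ∃ (K : ℕ) (Λ : ℕ → ℕ), (∀ a b, Λ a + Λ b ≤ Λ (a + b)) ∧
      (∀ n, Λ n + 2 * padicValRat 3 (L.eval ((n + 1 : ℕ) : ℚ)) ≤ Λ (n + 1)) ∧
      ∀ n, Λ n ≤ K * n := by
  classical
  have hL : L ≠ 0 := fun h => h0 0 (by rw [h, eval_zero])
  obtain ⟨c1, h1⟩ := val_small L
  obtain ⟨c, k1, k2⟩ : ∃ c : ℕ, c1 ≤ c ∧ padicValRat 3 L.leadingCoeff < c :=
    ⟨c1 + (padicValRat 3 L.leadingCoeff).natAbs + 1, by omega, by omega⟩
  set r := L.natDegree
  let A : ℕ → ℕ → Prop := fun t n => (r * t + c : ℤ) ≤ padicValRat 3 (L.eval (n : ℚ))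
  have a1 : ∀ t, ∀ n < 3 ^ t, ¬ A t n := fun t n hn h => by
    have := h1 t n hn (h0 n)
    simp only [A] at h
    omega
  choose f f1 f2 f3 using fun t => window (A t) (w := 3 ^ t) (r := r) (by positivity) (a1 t)
    fun j => by
      by_contra h
      obtain ⟨s, s1, s2⟩ := exists_subset_card_eq (not_le.1 h)
      have := val_close hL s2 (s1.trans (filter_subset _ _)) (m := c)
        fun x hx => (mem_filter.1 (s1 hx)).2
      omega
  have ext : ∀ n M, n ≤ M → ∑ t ∈ range M, f t n = ∑ t ∈ range n, f t n := fun n M h =>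
    (sum_subset (range_subset_range.2 h) fun t _ ht => by
      have a : n < 3 ^ t := lt_of_le_of_lt (by simpa using ht) (Nat.lt_pow_self (by norm_num))
      have := f3 t n
      rw [Nat.div_eq_of_lt a] at this
      omega).symm
  refine ⟨2 * (c + r * (2 * r * 3)), fun n => 2 * (c * n + r * ∑ t ∈ range n, f t n),
    fun a b => ?_, fun n => ?_, fun n => ?_⟩
  · have : ∑ t ∈ range a, f t a + ∑ t ∈ range b, f t b ≤ ∑ t ∈ range (a + b), f t (a + b) := by
      rw [← ext a (a + b) (by omega), ← ext b (a + b) (by omega), ← sum_add_distrib]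
      exact sum_le_sum fun t _ => f1 t a b
    have := Nat.mul_le_mul_left r this
    simp only [mul_add] at this ⊢
    omega
  · have ex : ∃ t, ¬ A t (n + 1) := ⟨n + 1, a1 _ _ (Nat.lt_pow_self (by norm_num))⟩
    obtain ⟨T, t1, t2, t0⟩ : ∃ T, T ≤ n + 1 ∧ ¬ A T (n + 1) ∧ ∀ t < T, A t (n + 1) :=
      ⟨Nat.find ex, Nat.find_min' ex (a1 _ _ (Nat.lt_pow_self (by norm_num))), Nat.find_spec ex,
        fun t ht => not_not.1 (Nat.find_min ex ht)⟩
    have t3 : T ≤ ∑ t ∈ range (n + 1), if A t (n + 1) then 1 else 0 := by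
      refine le_trans ?_ (sum_le_sum_of_subset (range_subset_range.2 t1))
      rw [sum_congr rfl fun t ht => if_pos (t0 t (mem_range.1 ht))]
      simp
    have t4 : ∑ t ∈ range n, f t n + T ≤ ∑ t ∈ range (n + 1), f t (n + 1) := by
      rw [← ext n (n + 1) (by omega)]
      refine (Nat.add_le_add_left t3 _).trans ?_
      rw [← sum_add_distrib]
      exact sum_le_sum fun t _ => f2 t n
    have t5 := Nat.mul_le_mul_left r t4
    simp only [A, not_le] at t2
    rw [mul_add] at t5
    beta_reduce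
    rw [mul_add c, mul_one]
    omega
  · have a : ∑ t ∈ range n, f t n ≤ 2 * r * 3 * n := by
      refine (sum_le_sum fun t _ => f3 t n).trans ?_
      rw [← mul_sum, mul_assoc (2 * r)]
      exact Nat.mul_le_mul_left _ ((Nat.geom_sum_le (by norm_num) n n).trans (by omega))
    have := Nat.mul_le_mul_left r a
    nlinarith

end Pool.Agent.Lib.MP_efb7ef_gt.P3
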