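import Pool.Agent.Lib.MP_efb7ef_gt.P3.Eis
import Pool.Agent.Lib.MP_efb7ef_gt.P3.Win

/-! Formal solutions of algebraic differential equations converge 3-adically. -/

namespace Pool.Agent.Lib.MP_efb7ef_gt.P3

open Finset PowerSeries

/-- a bound with weight `W` for the valuations of the first `N` coefficients -/
def Bw (W : ℕ → ℤ) (C : ℤ) (N : ℕ) (F : ℚ⟦X⟧) : Prop := ∀ n < N, G2 (coeff n F) (-(W n + C))

/-- bounds for the `Y i` give a bound for `E` -/
def Gd {ι : Type} (Y : ι → ℚ⟦X⟧) (E : ℚ⟦X⟧) : Prop :=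
  ∃ K d : ℕ, ∀ (W : ℕ → ℤ) (C : ℤ) (N : ℕ), (∀ a b, W a + W b ≤ W (a + b)) →
    (∀ n : ℕ, (K : ℤ) * n ≤ W n) → (K : ℤ) ≤ C → (∀ i, Bw W C N (Y i)) → Bw W (d * C) N E

variable {ι : Type} {Y : ι → ℚ⟦X⟧}

theorem Gd.gen (i : ι) : Gd Y (Y i) :=
  ⟨0, 1, fun _ _ _ _ _ _ h => by simpa using h i⟩

theorem Gd.of_mem {E : ℚ⟦X⟧} (h : E ∈ RR) : Gd Y E := by
  obtain ⟨K, hK⟩ := h
  refine ⟨K, 1, fun W C N _ h1 h2 _ n _ => (hK n).mono ?_⟩
  have := h1 n
  push_cast
  linarith

theorem Gd.both {E F : ℚ⟦X⟧} (hE : Gd Y E) (hF : Gd Y F) :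
    ∃ K d d' : ℕ, ∀ (W : ℕ → ℤ) (C : ℤ) (N : ℕ), (∀ a b, W a + W b ≤ W (a + b)) →
    (∀ n : ℕ, (K : ℤ) * n ≤ W n) → (K : ℤ) ≤ C → (∀ i, Bw W C N (Y i)) →
      Bw W (d * C) N E ∧ Bw W (d' * C) N F := by
  obtain ⟨K, d, h⟩ := hE
  obtain ⟨K', d', h'⟩ := hF
  refine ⟨K + K', d, d', fun W C N h0 h1 h2 h3 => ?_⟩
  push_cast at h1 h2
  refine ⟨h W C N h0 (fun n => ?_) (by omega) h3, h' W C N h0 (fun n => ?_) (by omega) h3⟩
  · have : (0 : ℤ) ≤ K' * n := by positivity
    linarith [h1 n]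
  · have : (0 : ℤ) ≤ K * n := by positivity
    linarith [h1 n]

theorem Gd.add {E F : ℚ⟦X⟧} (hE : Gd Y E) (hF : Gd Y F) : Gd Y (E + F) := by
  obtain ⟨K, d, d', h⟩ := hE.both hF
  refine ⟨K, d + d', fun W C N h0 h1 h2 h3 n hn => ?_⟩
  obtain ⟨a, b⟩ := h W C N h0 h1 h2 h3
  have c0 : 0 ≤ C := le_trans (by positivity) h2
  have c1 : (0 : ℤ) ≤ d * C := by positivity
  have c2 : (0 : ℤ) ≤ d' * C := by positivity
  rw [map_add]
  exact ((a n hn).mono (by push_cast; linarith)).add ((b n hn).mono (by push_cast; linarith))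

theorem Gd.mul {E F : ℚ⟦X⟧} (hE : Gd Y E) (hF : Gd Y F) : Gd Y (E * F) := by
  obtain ⟨K, d, d', h⟩ := hE.both hF
  refine ⟨K, d + d', fun W C N h0 h1 h2 h3 n hn => ?_⟩
  obtain ⟨a, b⟩ := h W C N h0 h1 h2 h3
  rw [coeff_mul]
  refine G2.sum fun x hx => ?_
  have hx := mem_antidiagonal.1 hx
  refine ((a x.1 (by omega)).mul (b x.2 (by omega))).mono ?_
  have := h0 x.1 x.2
  rw [hx] at this
  push_cast
  linarith

theorem Gd.sum {κ : Type} {s : Finset κ} {f : κ → ℚ⟦X⟧} (h : ∀ i ∈ s, Gd Y (f i)) :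
    Gd Y (∑ i ∈ s, f i) :=
  sum_induction f _ (fun _ _ => Gd.add) (Gd.of_mem (zero_mem _)) h

theorem mem_of_rec {S E : ℚ⟦X⟧} (hE : Gd Y E) (hY : ∀ i n, ∃ z : ℕ, coeff n (Y i) = z * coeff n S)
    {L : Polynomial ℚ} (h0 : ∀ n : ℕ, L.eval (n : ℚ) ≠ 0)
    (h : ∀ n : ℕ, L.eval ((n + 1 : ℕ) : ℚ) * coeff (n + 1) S = coeff n E) : S ∈ RR := by
  obtain ⟨K, d, hE⟩ := hE
  obtain ⟨K', Λ, l1, l2, l3⟩ := superadd h0
  obtain ⟨K0, k0⟩ := exists_ge (coeff 0 S)
  obtain ⟨C, c1, c2⟩ : ∃ C : ℕ, K ≤ C ∧ K0 ≤ C := ⟨K + K0, by omega, by omega⟩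
  set W : ℕ → ℤ := fun n => Λ n + (K + d * C) * n with hW
  have key : ∀ N, Bw W C N S := by
    intro N
    induction N with
    | zero => exact fun n hn => absurd hn (Nat.not_lt_zero n)
    | succ N ih =>
      intro n hn
      cases n with
      | zero => exact k0.mono (by simp only [hW]; push_cast; omega)
      | succ n =>
        have a := hE W C N (fun a b => by
            have : (Λ a : ℤ) + Λ b ≤ Λ (a + b) := by exact_mod_cast l1 a b
            simp only [hW]
            push_cast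
            linarith)
          (fun m => by
            have : (0 : ℤ) ≤ Λ m + d * C * m := by positivity
            simp only [hW]
            linarith)
          (by exact_mod_cast c1) (fun i m hm => by
            obtain ⟨z, hz⟩ := hY i m
            have := (G2.int z).mul (ih m hm)
            rw [hz]
            simpa using this) n (by omega)
        have b := a.div (y := L.eval ((n + 1 : ℕ) : ℚ)) ⟨h0 _, rfl⟩
        rw [← h n, mul_div_cancel_left₀ _ (h0 _)] at b
        refine b.mono ?_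
        have := l2 n
        have : (0 : ℤ) ≤ K + C := by positivity
        simp only [hW]
        push_cast at *
        linarith
  refine ⟨K' + (K + d * C) + C, fun n => (key (n + 1) n (by omega)).mono ?_⟩
  have a : (Λ n : ℤ) ≤ K' * n := by exact_mod_cast l3 n
  have : (0 : ℤ) ≤ K' + K + d * C + C * n := by positivity
  simp only [hW]
  push_cast
  linarith

theorem aeval_mem {a : ι → ℚ⟦X⟧} (ha : ∀ i, a i ∈ RR) (P : MvPolynomial ι RR) :
    MvPolynomial.aeval a P ∈ RR := by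
  induction P using MvPolynomial.induction_on with
  | C c => rw [MvPolynomial.aeval_C]; exact c.2
  | add p q h1 h2 => rw [map_add]; exact add_mem h1 h2
  | mul_X p j h => rw [map_mul, MvPolynomial.aeval_X]; exact mul_mem h (ha j)

theorem taylor2 [Fintype ι] {s a Z : ι → ℚ⟦X⟧} {t : ℚ⟦X⟧} (hs : ∀ i, s i = a i + t * Z i)
    (ha : ∀ i, a i ∈ RR) (ht : t ∈ RR) (hZ : ∀ i, Gd Y (Z i)) (P : MvPolynomial ι RR) :
    ∃ E, Gd Y E ∧ MvPolynomial.aeval s P = MvPolynomial.aeval a P +
      t * ∑ i, MvPolynomial.aeval a (MvPolynomial.pderiv i P) * Z i + t ^ 2 * E := by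
  classical
  induction P using MvPolynomial.induction_on with
  | C c => exact ⟨0, Gd.of_mem (zero_mem _), by simp⟩
  | add p q h1 h2 =>
    obtain ⟨E, e1, e2⟩ := h1
    obtain ⟨F, f1, f2⟩ := h2
    refine ⟨E + F, e1.add f1, ?_⟩
    simp only [map_add, add_mul, sum_add_distrib]
    rw [e2, f2]
    ring
  | mul_X p j h =>
    obtain ⟨E, e1, e2⟩ := h
    refine ⟨(∑ i, MvPolynomial.aeval a (MvPolynomial.pderiv i p) * Z i) * Z j + E * a j +
      t * E * Z j, ((Gd.mul (Gd.sum fun i _ => (Gd.of_mem (aeval_mem ha _)).mul (hZ i)) (hZ j)).add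
        (e1.mul (Gd.of_mem (ha j)))).add (((Gd.of_mem ht).mul e1).mul (hZ j)), ?_⟩
    have : ∑ i, MvPolynomial.aeval a (MvPolynomial.pderiv i (p * MvPolynomial.X j)) * Z i =
        (∑ i, MvPolynomial.aeval a (MvPolynomial.pderiv i p) * Z i) * a j +
          MvPolynomial.aeval a p * Z j := by
      simp only [MvPolynomial.pderiv_mul, map_add, map_mul, MvPolynomial.aeval_X, add_mul,
        sum_add_distrib]
      congr 1
      · rw [sum_mul]
        exact sum_congr rfl fun i _ => by ring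
      · rw [sum_eq_single j (fun i _ hi => by
          rw [MvPolynomial.pderiv_X_of_ne hi.symm, map_zero, mul_zero, zero_mul]) (by simp),
          MvPolynomial.pderiv_X_self, map_one, mul_one]
    rw [this, map_mul, map_mul, MvPolynomial.aeval_X, MvPolynomial.aeval_X, e2, hs j]
    ring

theorem iter_mem {A : ℚ⟦X⟧} (h : A ∈ RR) (k : ℕ) : (derivative ℚ)^[k] A ∈ RR := by
  induction k with
  | zero => exact h
  | succ k ih =>
    obtain ⟨K, hK⟩ := ih
    refine ⟨2 * K, fun n => ?_⟩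
    rw [Function.iterate_succ_apply', coeff_derivative]
    have := (hK (n + 1)).mul (G2.int (n + 1))
    have a : (0 : ℤ) ≤ K * n := by positivity
    push_cast at this ⊢
    exact this.mono (by linarith)

theorem exists_shift {L : Polynomial ℚ} (hL : L ≠ 0) :
    ∃ B : ℕ, ∀ n : ℕ, B < n → L.eval (n : ℚ) ≠ 0 := by
  obtain ⟨B, hB⟩ := ((Polynomial.finite_setOfPred_isRoot hL).preimage
    (f := fun n : ℕ => (n : ℚ)) Nat.cast_injective.injOn).bddAbove
  exact ⟨B, fun n hn h => absurd (hB (show n ∈ _ from h)) (not_le.2 hn)⟩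

theorem mem_of_simple_ade [Fintype ι] {f : ι → ℕ} (hf : Function.Injective f) {S : ℚ⟦X⟧}
    {P : MvPolynomial ι RR} (h0 : MvPolynomial.aeval (fun i => (derivative ℚ)^[f i] S) P = 0)
    (h1 : ∃ i, MvPolynomial.aeval (fun i => (derivative ℚ)^[f i] S) (MvPolynomial.pderiv i P) ≠ 0) :
    S ∈ RR := by
  classical
  set s := fun i => (derivative ℚ)^[f i] S with hs
  obtain ⟨R, hR⟩ : ∃ R, ∀ i, f i ≤ R := ⟨univ.sup f, fun i => le_sup (mem_univ i)⟩
  set D := fun i => X ^ (R - f i) * MvPolynomial.aeval s (MvPolynomial.pderiv i P) with hD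
  have ex : ∃ n, ∃ i, coeff n (D i) ≠ 0 := by
    obtain ⟨i, hi⟩ := h1
    by_contra h
    push Not at h
    exact mul_ne_zero (pow_ne_zero _ X_ne_zero) hi (show D i = 0 by ext n; simpa using h n i)
  obtain ⟨v, v1, v2⟩ : ∃ v, (∃ i, coeff v (D i) ≠ 0) ∧ ∀ i, X ^ v ∣ D i :=
    ⟨Nat.find ex, Nat.find_spec ex, fun i => X_pow_dvd_iff.2 fun m hm => by
      by_contra h
      exact Nat.find_min ex hm ⟨i, h⟩⟩
  choose U hU using v2
  set L : Polynomial ℚ := ∑ i, Polynomial.C (constantCoeff (U i)) * descPochhammer ℚ (f i) with hL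
  have ev : ∀ n : ℕ, L.eval (n : ℚ) = ∑ i, constantCoeff (U i) * n.descFactorial (f i) := by
    intro n
    rw [hL, Polynomial.eval_finsetSum]
    exact sum_congr rfl fun i _ => by
      rw [Polynomial.eval_mul, Polynomial.eval_C, descPochhammer_eval_eq_descFactorial]
  have L0 : L ≠ 0 := by
    obtain ⟨i, hi⟩ := v1
    have : constantCoeff (U i) ≠ 0 := by
      rwa [hU i, coeff_X_pow_mul', if_pos le_rfl, Nat.sub_self, coeff_zero_eq_constantCoeff] at hi
    obtain ⟨j, j1, j2⟩ := exists_min_image (univ.filter fun i => constantCoeff (U i) ≠ 0) f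
      ⟨i, by simpa using this⟩
    intro h
    have e := ev (f j)
    rw [h, Polynomial.eval_zero, sum_eq_single j (fun k _ hk => ?_) (by simp)] at e
    · refine mul_ne_zero (mem_filter.1 j1).2 ?_ e.symm
      rw [Nat.descFactorial_self]
      exact Nat.cast_ne_zero.2 (Nat.factorial_ne_zero _)
    · by_cases c : constantCoeff (U k) = 0
      · rw [c, zero_mul]
      · have a := j2 k (by simpa using c)
        have b : f k ≠ f j := fun h => hk (hf h)
        rw [Nat.descFactorial_eq_zero_iff_lt.2 (by omega), Nat.cast_zero, mul_zero]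
  obtain ⟨B, hB⟩ := exists_shift L0
  obtain ⟨A, hA, T, hS⟩ := exists_split S (v + 1 + B + R)
  suffices hT : T ∈ RR by rw [hS]; exact add_mem hA (mul_mem (pow_mem X_mem _) hT)
  set Y := fun i => mk fun n => ((n + (v + 1 + B + R)).descFactorial (f i) : ℚ) * coeff n T with hY
  set a := fun i => (derivative ℚ)^[f i] A with ha
  have am : ∀ i, a i ∈ RR := fun i => iter_mem hA _
  have e1 : ∀ i, s i = a i + X ^ (v + 1 + B) * (X ^ (R - f i) * Y i) := by
    intro i
    have := hR i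
    ext n
    simp only [hs, ha, hY]
    rw [← mul_assoc, ← pow_add, map_add, coeff_iterate_derivative, coeff_iterate_derivative,
      coeff_X_pow_mul', ← Nat.add_descFactorial_eq_ascFactorial]
    conv_lhs => rw [hS, map_add, coeff_X_pow_mul']
    rw [mul_add]
    congr 1
    by_cases c : v + 1 + B + R ≤ n + f i
    · rw [if_pos c, if_pos (by omega), coeff_mk]
      congr 3 <;> omega
    · rw [if_neg c, if_neg (by omega), mul_zero]
  have tm : (X : ℚ⟦X⟧) ^ (v + 1 + B) ∈ RR := pow_mem X_mem _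
  have zg : ∀ i, Gd Y (X ^ (R - f i) * Y i) := fun i =>
    (Gd.of_mem (pow_mem X_mem _)).mul (Gd.gen i)
  have e2 : ∀ i, ∃ V ∈ RR, X ^ (R - f i) * MvPolynomial.aeval a (MvPolynomial.pderiv i P) =
      X ^ v * (C (constantCoeff (U i)) + X * V) := by
    intro i
    obtain ⟨E, -, e⟩ := taylor2 e1 am tm zg (MvPolynomial.pderiv i P)
    obtain ⟨W, hW⟩ : ∃ W, X ^ (R - f i) * MvPolynomial.aeval a (MvPolynomial.pderiv i P) =
        X ^ v * (U i + X * W) := by
      refine ⟨-(X ^ B * X ^ (R - f i) * (∑ j, MvPolynomial.aeval a (MvPolynomial.pderiv j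
        (MvPolynomial.pderiv i P)) * (X ^ (R - f j) * Y j) + X ^ (v + 1 + B) * E)), ?_⟩
      have := hU i
      simp only [hD] at this
      rw [e] at this
      linear_combination this
    have m : U i + X * W ∈ RR :=
      mem_of_X_pow_mul (hW ▸ mul_mem (pow_mem X_mem _) (aeval_mem am _))
    obtain ⟨V, hV⟩ : ∃ V : ℚ⟦X⟧, U i + X * W = X * V + C (constantCoeff (U i)) :=
      ⟨_, (eq_X_mul_shift_add_const _).trans (by
        rw [map_add, map_mul, constantCoeff_X, zero_mul, add_zero])⟩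
    refine ⟨V, mem_of_X_mul ?_, by rw [hW, hV, add_comm]⟩
    rw [show X * V = U i + X * W - C (constantCoeff (U i)) by rw [hV]; ring]
    exact sub_mem m (C_mem _)
  choose V V1 V2 using e2
  obtain ⟨E, g, e⟩ := taylor2 e1 am tm zg P
  have e3 : ∑ i, MvPolynomial.aeval a (MvPolynomial.pderiv i P) * (X ^ (R - f i) * Y i) =
      X ^ v * (∑ i, C (constantCoeff (U i)) * Y i + X * ∑ i, V i * Y i) := by
    rw [mul_sum, ← sum_add_distrib, mul_sum]
    exact sum_congr rfl fun i _ => by linear_combination (Y i) * V2 i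
  rw [h0, e3] at e
  obtain ⟨H, hH⟩ : ∃ H, H = ∑ i, C (constantCoeff (U i)) * Y i +
    X * (∑ i, V i * Y i + X ^ B * E) := ⟨_, rfl⟩
  have m : H ∈ RR := mem_of_X_pow_mul (m := 2 * v + 1 + B) (by
    rw [show X ^ (2 * v + 1 + B) * H = -MvPolynomial.aeval a P by
      rw [hH]; linear_combination -e]
    exact neg_mem (aeval_mem am _))
  have m1 : (PowerSeries.mk fun n => coeff (n + 1) H) ∈ RR := mem_of_X_mul (by
    rw [show (X * PowerSeries.mk fun n => coeff (n + 1) H) = H - C (constantCoeff H) by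
      linear_combination -eq_X_mul_shift_add_const H]
    exact sub_mem m (C_mem _))
  refine mem_of_rec (Y := Y) (L := Polynomial.taylor ((v + 1 + B + R : ℕ) : ℚ) L)
    ((Gd.of_mem m1).add ((Gd.of_mem (neg_mem (one_mem _))).mul
      ((Gd.sum (s := univ) fun i _ => (Gd.of_mem (V1 i)).mul (Gd.gen i)).add
        ((Gd.of_mem (pow_mem X_mem B)).mul g))))
    (fun i n => ⟨_, coeff_mk _ _⟩) (fun n => ?_) fun n => ?_
  · rw [Polynomial.taylor_eval, ← Nat.cast_add]
    exact hB _ (by omega)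
  · rw [Polynomial.taylor_eval, ← Nat.cast_add, ev, map_add, coeff_mk, hH, map_add,
      coeff_succ_X_mul, neg_one_mul, map_neg, add_neg_cancel_right, map_sum, sum_mul]
    exact sum_congr rfl fun i _ => by rw [coeff_C_mul, hY, coeff_mk, mul_assoc]

theorem mem_of_ade [Fintype ι] {f : ι → ℕ} (hf : Function.Injective f) {S : ℚ⟦X⟧} (d : ℕ) :
    ∀ P : MvPolynomial ι RR, P.totalDegree = d → P ≠ 0 →
      MvPolynomial.aeval (fun i => (derivative ℚ)^[f i] S) P = 0 → S ∈ RR := by
  classical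
  have : CharZero ℚ⟦X⟧ := algebraRat.charZero _
  induction d using Nat.strong_induction_on with
  | _ d ih =>
    intro P hd hP h0
    by_cases h1 : ∃ i, MvPolynomial.aeval (fun i => (derivative ℚ)^[f i] S)
      (MvPolynomial.pderiv i P) ≠ 0
    · exact mem_of_simple_ade hf h0 h1
    push Not at h1
    obtain ⟨i, hi⟩ : ∃ i, MvPolynomial.pderiv i P ≠ 0 := by
      by_contra h
      push Not at h
      have e : P = MvPolynomial.C (P.coeff 0) := by
        ext1 m
        rw [MvPolynomial.coeff_C]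
        split_ifs with c
        · rw [← c]
        · obtain ⟨i, hi⟩ := Finsupp.ne_iff.1 (Ne.symm c)
          have a := MvPolynomial.coeff_pderiv (i := i) P (m - Finsupp.single i 1)
          rw [h i, MvPolynomial.coeff_zero, tsub_add_cancel_of_le
            (Finsupp.single_le_iff.2 (Nat.pos_of_ne_zero hi))] at a
          exact (mul_eq_zero.1 a.symm).resolve_right (Nat.cast_add_one_ne_zero _)
      rw [e, MvPolynomial.aeval_C] at h0
      exact hP (by rw [e, show P.coeff 0 = 0 from Subtype.ext h0, map_zero])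
    refine ih _ ?_ _ rfl hi (h1 i)
    obtain ⟨m, m1, m2⟩ := exists_mem_eq_sup _ (MvPolynomial.support_nonempty.2 hi)
      fun s : ι →₀ ℕ => s.sum fun _ e => e
    have a : m + Finsupp.single i 1 ∈ P.support := by
      rw [MvPolynomial.mem_support_iff, MvPolynomial.coeff_pderiv] at m1
      exact MvPolynomial.mem_support_iff.2 (left_ne_zero_of_mul m1)
    have b := MvPolynomial.le_totalDegree a
    rw [Finsupp.sum_add_index' (fun _ => rfl) (fun _ _ _ => rfl), Finsupp.sum_single_index rfl,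
      ← m2] at b
    rw [← hd]
    exact b

end Pool.Agent.Lib.MP_efb7ef_gt.P3
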