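import Pool.Agent.Lib.MP_efb7ef_gt.P3.Good

/-! Exact valuations at the block that belongs to an odd power of three. -/

namespace Pool.Agent.Lib.MP_efb7ef_gt.P3

open Finset

/-- the block at the index `3 s` -/
structure Ctx (j s : ℕ) : Prop where
  pow : 12 * s + 3 = 3 ^ j
  big : 15 ≤ j

namespace Ctx

variable {j s : ℕ} (c : Ctx j s)
include c

theorem ev0 : ev (2 * s) = j := by
  have := three
  rw [ev, show 6 * (2 * s) + 3 = 3 ^ j by rw [← c.pow]; ring, padicValNat.prime_pow]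

theorem ev1 : ev (2 * s + 1) = 1 := by
  have a := c.ev0
  have b := c.big
  rcases ev_min (2 * s) with h | h <;> omega

theorem pos : 1 ≤ s := by
  have a := c.pow
  have b : 3 ^ 2 ≤ 3 ^ j := Nat.pow_le_pow_right (by norm_num) (by have := c.big; omega)
  omega

theorem low : EQ (3 * s) ≤ j - 1 := by
  have : Nat.log 3 (4 * (3 * s) + 1) < j :=
    Nat.log_lt_of_lt_pow (by omega) (by rw [← c.pow]; omega)
  unfold EQ
  omega

theorem mid : (j : ℤ) ≤ EQ (3 * s + 1) := by
  have := ev_le (t := 2 * s) (Q := 3 * s + 1) (by omega)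
  rwa [c.ev0] at this

theorem mid' : EQ (3 * s + 2) ≤ j := by
  have : Nat.log 3 (4 * (3 * s + 2) + 1) < j + 1 :=
    Nat.log_lt_of_lt_pow (by omega) (by have := c.pos; rw [pow_succ, ← c.pow]; omega)
  unfold EQ
  omega

theorem lt_of_le {Q : ℕ} (h : (j : ℤ) ≤ EQ Q) : 3 * s + 1 ≤ Q := by
  by_contra h'
  have := EQ_mono (Q := Q) (Q' := 3 * s) (by omega)
  have := c.low
  omega

theorem le_of_lt {Q : ℕ} (h : EQ Q < j) : Q ≤ 3 * s := by
  by_contra h'
  have := EQ_mono (Q := 3 * s + 1) (Q' := Q) (by omega)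
  have := c.mid
  omega

theorem h1 : hh j (3 * s + 1) = hh j (3 * s) := by
  unfold hh
  rw [BB_step0, c.ev0]
  push_cast
  ring

theorem h2 : hh j (3 * s + 2) = hh j (3 * s) + 1 := by
  unfold hh
  rw [BB_step1, BB_step0, c.ev0, c.ev1]
  push_cast
  ring

theorem hD : hh j (3 * s) + 1 ≤ j * (3 * s) := by
  have a := BB_mono (x := 1) (y := 3 * s) (by have := c.pos; omega)
  have b := one_le_ev 0
  rw [BB_one, av_two (t := 0) (by norm_num)] at a
  unfold hh
  push_cast
  omega

theorem hlt {x : ℕ} (h : x < 3 * s) : hh j x + 1 ≤ hh j (3 * s) := by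
  have a := hh_mono (E := j - 1) h.le c.low
  have b := hh_add (j - 1) 1 x
  have d := hh_add (j - 1) 1 (3 * s)
  rw [sub_add_cancel] at b d
  omega

theorem high {Q n : ℕ} (h : (j : ℤ) < EQ Q) (hn : n ≤ 2 * j * (3 * s) + 2) :
    EQ Q * (3 * s + 1) + j * (3 * s) + EQ Q * n < 2 * hh (EQ Q) Q + j * n := by
  obtain ⟨x, hx⟩ : ∃ x : ℕ, Nat.log 3 (4 * Q + 1) = j + (x + 1) :=
    ⟨Nat.log 3 (4 * Q + 1) - j - 1, by unfold EQ at h; omega⟩
  have a : 3 ^ (j + (x + 1)) ≤ 4 * Q + 1 := hx ▸ Nat.pow_log_le_self 3 (by omega)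
  have b : 2 * x + 3 ≤ 3 ^ (x + 1) := by
    clear a hx
    induction x with
    | zero => norm_num
    | succ x ih => rw [pow_succ]; omega
  rw [pow_add, ← c.pow] at a
  have d : (2 * x + 3) * (3 * s) + (x + 1) ≤ Q := by nlinarith
  have e : EQ Q = j + (x + 1) := by unfold EQ; rw [hx]; push_cast; ring
  have f := BB_le Q
  obtain ⟨i, rfl⟩ : ∃ i, j = i + 15 := ⟨j - 15, by have := c.big; omega⟩
  have d' : ((2 * x + 3) * (3 * s) + (x + 1) : ℤ) ≤ Q := by exact_mod_cast d
  have n' : (n : ℤ) ≤ 2 * (i + 15) * (3 * s) + 2 := by exact_mod_cast hn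
  have g1 : ((x : ℤ) + 1) * n ≤ (x + 1) * (2 * (i + 15) * (3 * s) + 2) :=
    mul_le_mul_of_nonneg_left n' (by positivity)
  have g2 : ((i : ℤ) + x + 12) * ((2 * x + 3) * (3 * s) + (x + 1)) ≤ (i + x + 12) * Q :=
    mul_le_mul_of_nonneg_left d' (by positivity)
  unfold hh
  rw [e]
  push_cast
  have i0 : (0 : ℤ) ≤ i := by positivity
  have x0 : (0 : ℤ) ≤ x := by positivity
  have s0 : (0 : ℤ) ≤ s := by positivity
  nlinarith [mul_nonneg i0 x0, mul_nonneg i0 s0, mul_nonneg x0 s0, mul_nonneg x0 x0,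
    mul_nonneg (mul_nonneg i0 x0) s0, mul_nonneg (mul_nonneg x0 x0) s0]

theorem base {Q n : ℕ} {r : ℤ} (hQ : EQ Q ≤ j) (a : r.natAbs ≤ Q) (hn : r.natAbs ≤ n) :
    hh j r.natAbs + (if r.natAbs < 3 * s ∧ r.natAbs < n then 1 else 0) - j * n + av (2 * r) ≤
      bd Q n r := by
  have d := hh_mono (E := EQ Q) a le_rfl
  unfold bd
  rcases hQ.eq_or_lt with h | h
  · have e := hh_mono (E := j) (x := 3 * s) (y := Q) (by have := c.lt_of_le h.ge; omega) hQ
    rw [h] at d ⊢
    split_ifs with h'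
    · have := c.hlt h'.1
      omega
    · omega
  · obtain ⟨t, ht⟩ : ∃ t, (j : ℤ) = EQ Q + t := ⟨j - EQ Q, by ring⟩
    have e := hh_add (EQ Q) t r.natAbs
    have f' : (j : ℤ) * n = EQ Q * n + t * n := by rw [ht]; ring
    rw [← ht] at e
    split_ifs with h'
    · have f : t * ((r.natAbs : ℤ) + 1) ≤ t * n := mul_le_mul_of_nonneg_left (by omega) (by omega)
      rw [mul_add] at f
      omega
    · have f : t * (r.natAbs : ℤ) ≤ t * n := mul_le_mul_of_nonneg_left (by omega) (by omega)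
      omega

theorem av1 : av (6 * s + 1) = j := by rw [av_one (t := 2 * s) (by push_cast; ring), c.ev0]

theorem av2 : av (6 * s + 2) = j := by rw [av_two (t := 2 * s) (by push_cast; ring), c.ev0]

theorem av4 : av (6 * s + 4) = 1 := by rw [av_one (t := 2 * s + 1) (by push_cast; ring), c.ev1]

/-- positivity of the cost of the steps above the block -/
theorem ww_pos {p r k : ℤ} (hp : p = 3 * s ∨ p = 3 * s + 1) (hr : 3 * s ≤ r)
    (ha : av (p + r) ≤ j) (hk : 1 ≤ k) (h2 : r - p ≤ k)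
    (hm : ¬ (k = 1 ∧ p + r = 6 * s + 1)) : 1 ≤ ww j p r k := by
  have b := c.big
  have a1 := c.av1
  have a2 := c.av2
  have a4 := c.av4
  have n1 := av_nonneg (2 * r)
  have n2 := av_nonneg (2 * p)
  unfold ww
  by_cases k3 : 3 ≤ k
  · have : (j : ℤ) * 3 ≤ j * k := mul_le_mul_of_nonneg_left k3 (by omega)
    omega
  by_cases z : (p + r) % 3 = 0
  · have : (j : ℤ) * 1 ≤ j * k := mul_le_mul_of_nonneg_left hk (by omega)
    rw [av_zero z]
    omega
  obtain rfl | rfl : k = 1 ∨ k = 2 := by omega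
  · have e1 : p = 3 * s + 1 := by omega
    have e2 : r = 3 * s + 1 := by omega
    rw [show 2 * p = 6 * s + 2 by omega, show 2 * r = 6 * s + 2 by omega]
    omega
  · rcases hp with hp | hp
    · obtain e | e : r = 3 * s + 1 ∨ r = 3 * s + 2 := by omega
      · rw [show 2 * r = 6 * s + 2 by omega]; omega
      · rw [show 2 * r = 6 * s + 4 by omega]; omega
    · rw [show 2 * p = 6 * s + 2 by omega]
      omega

/-- the terms other than the main one at the block -/
theorem tb1 {n k : ℕ} {p r : ℤ} {g : ℚ} (hg : G2 g 0) (hp : p = 3 * s ∨ p = 3 * s + 1)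
    (hk : 1 ≤ k) (h1 : p - r ≤ k) (h2 : r - p ≤ k) (hn : n + k ≤ 2 * j * (3 * s) + 2)
    (hn' : p < n + k) (hm : ¬ (k = 1 ∧ 3 * s ≤ r ∧ p + r = 6 * s + 1)) :
    G2 (-(g * al (p + r) * cf n r) / al (2 * p))
      (hh j (3 * s) - j * (n + k) + av (2 * p) + 1) := by
  by_cases h0 : cf n r = 0
  · rw [h0]; simpa using G2.zero _
  have hr := cf_ne h0
  obtain ⟨Q, a, b⟩ := good n r
  refine (term_ge hg b p r).mono ?_
  have j0 : (0 : ℤ) ≤ j := by positivity
  have hD := c.hD
  by_cases hQ : (j : ℤ) < EQ Q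
  · have q := c.lt_of_le hQ.le
    have l := lip (E := EQ Q) (p := r) (r := p) le_rfl a (by omega) h2 h1
    have m := c.high hQ hn
    have o := hh_le (EQ Q) p.natAbs
    have o' : EQ Q * (p.natAbs : ℤ) ≤ EQ Q * (3 * s + 1) :=
      mul_le_mul_of_nonneg_left (by omega) (EQ_nonneg Q)
    rw [ww_comm] at l
    unfold bd ww at *
    rw [Nat.cast_add, mul_add (EQ Q) (n : ℤ)] at m
    omega
  have hQ := not_lt.1 hQ
  have B := c.base hQ a hr
  have hE : EQ (max Q (3 * s + 1)) ≤ j := by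
    rcases le_total Q (3 * s + 1) with h | h
    · rw [max_eq_right h]; exact (EQ_mono (Nat.le_succ _)).trans c.mid'
    · rwa [max_eq_left h]
  have ha : av (p + r) ≤ j := (av_le (Q := max Q (3 * s + 1)) (by omega)).trans hE
  have hpD : hh j p.natAbs = hh j (3 * s) := by
    rcases hp with hp | hp
    · rw [show p.natAbs = 3 * s by omega]
    · rw [show p.natAbs = 3 * s + 1 by omega, c.h1]
  suffices H : hh j (3 * s) + 1 ≤ hh j r.natAbs +
      (if r.natAbs < 3 * s ∧ r.natAbs < n then 1 else 0) + ww j p r k by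
    unfold ww at H
    rw [mul_add]
    omega
  have n1 := av_nonneg (2 * r)
  have n2 := av_nonneg (2 * p)
  by_cases r0 : r < 0
  · have e : 0 ≤ (if r.natAbs < 3 * s ∧ r.natAbs < n then (1 : ℤ) else 0) := by
      split_ifs <;> omega
    unfold ww
    by_cases r1 : r = -1
    · subst r1
      have e1 : hh j (-1 : ℤ).natAbs + av (2 * -1) = j := by
        rw [show (2 * -1 : ℤ) = -2 by norm_num, av_neg, ← BB_one]
        simp [hh]
      have : (j : ℤ) * (3 * s + 1) ≤ j * k := mul_le_mul_of_nonneg_left (by omega) j0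
      rw [mul_add] at this
      omega
    · have e1 := hh_nonneg (y := r.natAbs) (E := j) ((EQ_mono a).trans hQ)
      have : (j : ℤ) * (3 * s + 2) ≤ j * k := mul_le_mul_of_nonneg_left (by omega) j0
      rw [mul_add] at this
      omega
  by_cases r1 : r < 3 * s
  · split_ifs with h
    · have := lip (p := p) (r := r) (k := k) hE (by omega) (by omega) h1 h2
      omega
    · have l := lip (p := p) (r := r) (k := k - 1) hE (by omega) (by omega) (by omega) (by omega)
      have w := ww_succ j p r (k - 1)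
      rw [sub_add_cancel] at w
      have := c.big
      omega
  · have w := c.ww_pos hp (not_lt.1 r1) ha (by exact_mod_cast hk) h2 (by omega)
    have m := hh_mono (E := j) (x := 3 * s) (y := r.natAbs) (by omega) ((EQ_mono a).trans hQ)
    rw [if_neg (by omega)]
    omega

theorem split {n : ℕ} {p : ℤ} (hp : p = 3 * s ∨ p = 3 * s + 1) (hn : n + 1 ≤ 2 * j * (3 * s) + 2)
    (hn' : p < n + 1) : ∃ x, G2 x (hh j (3 * s) - j * (n + 1) + av (2 * p) + 1) ∧
      cf (n + 1) p = -(bc 1 * al (6 * s + 1) * cf n (6 * s + 1 - p)) / al (2 * p) + x := by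
  have p0 : p ≠ 0 := by have := c.pos; omega
  rw [cf_succ' n p0, sum_range_succ', sum_range_succ, sum_range_succ, sum_range_zero]
  have R : G2 (∑ k ∈ range n, ∑ i ∈ range (k + 1 + 2),
      -(bc i * bc (k + 1 + 1 - i) * al (p + (p + ((k + 1 : ℕ) + 1 - 2 * i))) *
        cf (n - (k + 1)) (p + ((k + 1 : ℕ) + 1 - 2 * i))) / al (2 * p))
      (hh j (3 * s) - j * (n + 1) + av (2 * p) + 1) := by
    refine G2.sum fun k hk => G2.sum fun i hi => ?_
    have hk := mem_range.1 hk
    have hi := mem_range.1 hi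
    have := c.tb1 (n := n - (k + 1)) (k := k + 2) (r := p + ((k + 1 : ℕ) + 1 - 2 * i))
      (bb_ge i (k + 1 + 1 - i)) hp (by omega) (by omega) (by omega) (by omega) (by omega)
      (by omega)
    refine this.mono (le_of_eq ?_)
    congr 4
    omega
  simp only [Nat.cast_zero, zero_add, mul_zero, sub_zero, Nat.sub_zero, Nat.cast_one, mul_one,
    Nat.sub_self, bc_zero, one_mul]
  rcases hp with hp | hp
  · have := c.tb1 (n := n) (k := 1) (p := p) (r := p + (1 - 2)) (bc_ge 1) (Or.inl hp) le_rfl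
      (by omega) (by omega) hn (by omega) (by omega)
    refine ⟨_, R.add this, ?_⟩
    rw [show p + (p + 1) = 6 * s + 1 by omega, show p + 1 = 6 * s + 1 - p by omega]
    ring
  · have := c.tb1 (n := n) (k := 1) (p := p) (r := p + 1) (bc_ge 1) (Or.inr hp) le_rfl
      (by omega) (by omega) hn (by omega) (by omega)
    refine ⟨_, R.add this, ?_⟩
    rw [show p + (p + (1 - 2)) = 6 * s + 1 by omega, show p + (1 - 2) = 6 * s + 1 - p by omega]
    ring

theorem exact (m : ℕ) (hm : 3 * s + 1 + 2 * m ≤ 2 * j * (3 * s) + 2) :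
    E2 (cf (3 * s + 1 + 2 * m) (3 * s + 1)) (hh j (3 * s) - j * (3 * s + 1 + 2 * m) + j) := by
  have a1 := al_val (6 * s + 1)
  rw [c.av1] at a1
  induction m with
  | zero =>
    have := uu1_val s
    unfold uu at this
    push_cast at this
    refine this.cast ?_
    rw [NN1, ← NN0]
    unfold hh BB
    rw [av_zero (by omega)]
    push_cast
    ring
  | succ m ih =>
    have ih := ih (by omega)
    obtain ⟨x, hx, e⟩ := c.split (n := 3 * s + 1 + 2 * m) (p := 3 * s) (Or.inl rfl) (by omega)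
      (by omega)
    obtain ⟨y, hy, e'⟩ := c.split (n := 3 * s + 1 + 2 * m + 1) (p := 3 * s + 1) (Or.inr rfl)
      (by omega) (by omega)
    have z : av (2 * (3 * s)) = 0 := av_zero (by omega)
    have z' : av (2 * (3 * s + 1)) = j := by rw [← c.av2]; congr 1; ring
    rw [show (6 * s + 1 - 3 * s : ℤ) = 3 * s + 1 by ring] at e
    rw [show (6 * s + 1 - (3 * s + 1) : ℤ) = 3 * s by ring] at e'
    have s1 : E2 (cf (3 * s + 1 + 2 * m + 1) (3 * s))
        (hh j (3 * s) - j * ((3 * s + 1 + 2 * m : ℕ) + 1) + av (2 * (3 * s))) := by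
      rw [e]
      refine ((((bc_one.mul a1).mul ih).neg.div (al_val _)).cast ?_).add hx
      rw [z]
      push_cast
      ring
    rw [show 3 * s + 1 + 2 * (m + 1) = 3 * s + 1 + 2 * m + 1 + 1 by ring, e']
    refine (((((bc_one.mul a1).mul s1).neg.div (al_val _)).cast ?_).add hy).cast ?_
    · rw [z, z']
      push_cast
      ring
    · rw [z']
      push_cast
      ring

end Ctx

end Pool.Agent.Lib.MP_efb7ef_gt.P3
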