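import Pool.Agent.Lib.MP_efb7ef_gt.P3.Val

/-! The ring of the 3-adically convergent rational power series. -/

namespace Pool.Agent.Lib.MP_efb7ef_gt.P3

open Finset PowerSeries

/-- a linear bound for the valuations of the first `N` coefficients -/
def Bd (L C : ℤ) (N : ℕ) (F : ℚ⟦X⟧) : Prop := ∀ n < N, G2 (coeff n F) (-(L * n + C))

theorem Bd.mul {L C C' : ℤ} {N : ℕ} {F G : ℚ⟦X⟧} (hF : Bd L C N F) (hG : Bd L C' N G) :
    Bd L (C + C') N (F * G) := by
  intro n hn
  rw [coeff_mul]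
  refine G2.sum fun x hx => ?_
  have hx := mem_antidiagonal.1 hx
  refine ((hF x.1 (by omega)).mul (hG x.2 (by omega))).mono (le_of_eq ?_)
  rw [← hx]
  push_cast
  ring

theorem exists_ge (a : ℚ) : ∃ K : ℕ, G2 a (-K) :=
  ⟨(2 * padicValRat 3 a).natAbs, Or.inr (by omega)⟩

/-- the series with positive 3-adic radius of convergence -/
def RR : Subring ℚ⟦X⟧ where
  carrier := {F | ∃ K : ℕ, ∀ n, G2 (coeff n F) (-(K * (n + 1)))}
  mul_mem' := by
    rintro F G ⟨K, hK⟩ ⟨K', hK'⟩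
    refine ⟨K + K', fun n => ?_⟩
    have a : Bd (K + K') K (n + 1) F := fun m _ => (hK m).mono (by
      have : (0 : ℤ) ≤ K' * m := by positivity
      linarith)
    have b : Bd (K + K') K' (n + 1) G := fun m _ => (hK' m).mono (by
      have : (0 : ℤ) ≤ K * m := by positivity
      linarith)
    exact (a.mul b n (by omega)).mono (le_of_eq (by push_cast; ring))
  one_mem' := ⟨0, fun n => by
    rw [coeff_one]
    split_ifs
    · simpa using E2.one.ge
    · exact G2.zero _⟩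
  add_mem' := by
    rintro F G ⟨K, hK⟩ ⟨K', hK'⟩
    refine ⟨K + K', fun n => ?_⟩
    have a : (0 : ℤ) ≤ K' * (n + 1) := by positivity
    have b : (0 : ℤ) ≤ K * (n + 1) := by positivity
    rw [map_add]
    exact ((hK n).mono (by push_cast; linarith)).add ((hK' n).mono (by push_cast; linarith))
  zero_mem' := ⟨0, fun n => by rw [map_zero]; exact G2.zero _⟩
  neg_mem' := by
    rintro F ⟨K, hK⟩
    exact ⟨K, fun n => by rw [map_neg]; exact (hK n).neg⟩

theorem C_mem (a : ℚ) : C a ∈ RR := by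
  obtain ⟨K, hK⟩ := exists_ge a
  refine ⟨K, fun n => ?_⟩
  rw [coeff_C]
  split_ifs with h
  · subst h; simpa using hK
  · exact G2.zero _

theorem X_mem : (X : ℚ⟦X⟧) ∈ RR := ⟨0, fun n => by
  rw [coeff_X]
  split_ifs
  · simpa using E2.one.ge
  · exact G2.zero _⟩

theorem mem_of_X_mul {F : ℚ⟦X⟧} (h : X * F ∈ RR) : F ∈ RR := by
  obtain ⟨K, hK⟩ := h
  refine ⟨2 * K, fun n => ?_⟩
  have := hK (n + 1)
  rw [coeff_succ_X_mul] at this
  refine this.mono ?_
  have : (0 : ℤ) ≤ K * n := by positivity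
  push_cast
  linarith

theorem mem_of_X_pow_mul {F : ℚ⟦X⟧} {m : ℕ} (h : X ^ m * F ∈ RR) : F ∈ RR := by
  induction m with
  | zero => simpa using h
  | succ m ih => exact ih (mem_of_X_mul (by rwa [pow_succ', mul_assoc] at h))

theorem exists_split (S : ℚ⟦X⟧) (m : ℕ) : ∃ A ∈ RR, ∃ Y, S = A + X ^ m * Y := by
  induction m with
  | zero => exact ⟨0, zero_mem _, S, by simp⟩
  | succ m ih =>
    obtain ⟨A, hA, Y, h⟩ := ih
    refine ⟨A + X ^ m * C (constantCoeff Y), add_mem hA (mul_mem (pow_mem X_mem _) (C_mem _)),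
      mk fun n => coeff (n + 1) Y, ?_⟩
    conv_lhs => rw [h, eq_X_mul_shift_add_const Y]
    ring

end Pool.Agent.Lib.MP_efb7ef_gt.P3
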