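import Pool.Agent.Lib.MP_efb7ef_gt.P3.Block

/-! The series of the magic number has 3-adic radius of convergence zero. -/

namespace Pool.Agent.Lib.MP_efb7ef_gt.P3

open Finset

/-- the steps upwards without loss of time -/
def up (n p : ℕ) : ℚ := ∑ k ∈ range (n + 1), bc k * al (2 * p + k) * cf (n - k) (p + k)

/-- the other steps -/
def rest (n p : ℕ) : ℚ := ∑ k ∈ range (n + 1), ∑ i ∈ range k,
  bc (i + 1) * bc (k - (i + 1)) * al (p + (p + (k - 2 * (i + 1)))) *
    cf (n - k) (p + (k - 2 * (i + 1)))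

theorem ee_split (n p : ℕ) : ee n p = up n p + rest n p := by
  rw [ee, up, rest, ← sum_add_distrib]
  refine sum_congr rfl fun k _ => ?_
  rw [sum_range_succ', add_comm]
  congr 1
  · simp [bc_zero]
  · refine sum_congr rfl fun i _ => ?_
    push_cast
    congr 3
    ring

theorem mc_split (n : ℕ) : mc (n + 1) = 2 * up (n + 1) 0 + ∑ k ∈ range (n + 1), ∑ i ∈ range k,
    bc (i + 1) * bc (k + 1 - (i + 1)) * al ((k + 1 : ℕ) - 2 * (i + 1)) *
      cf (n - k) ((k + 1 : ℕ) - 2 * (i + 1)) := by
  have h := ee_split (n + 1) 0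
  rw [Nat.cast_zero, ee_zero] at h
  rw [h, two_mul, add_assoc]
  congr 1
  rw [rest, up, sum_range_succ', sum_range_succ' _ (n + 1), sum_range_zero]
  simp only [Nat.cast_zero, add_zero, mul_zero, Nat.sub_zero, cf_succ_zero]
  rw [← sum_add_distrib]
  refine sum_congr rfl fun k _ => ?_
  rw [sum_range_succ, add_comm, Nat.sub_self, bc_zero, mul_one]
  simp only [zero_add, Nat.add_sub_add_right]
  rw [show (((k + 1 : ℕ) : ℤ) - 2 * (k + 1)) = -((k + 1 : ℕ) : ℤ) by push_cast; ring, al_neg,
    cf_neg]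

theorem up_eq {n p : ℕ} (h : p ≤ n) : uu p * up (n - p) p =
    ∑ r ∈ range (n + 1), if p ≤ r then tt r p * cf (n - r) r else 0 := by
  rw [← sum_filter, show (range (n + 1)).filter (p ≤ ·) = Ico p (n + 1) by
    ext r; simp only [mem_filter, mem_range, mem_Ico]; omega, sum_Ico_eq_sum_range, up, mul_sum,
    show n + 1 - p = n - p + 1 by omega]
  refine sum_congr rfl fun k _ => ?_
  rw [tt, show p + k - p = k by omega, show n - (p + k) = n - p - k by omega,
    show (((p + k : ℕ) : ℤ) + p) = 2 * p + k by push_cast; ring]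
  push_cast
  ring

theorem up_zero {n P : ℕ} (h : P ≤ n) : up n 0 =
    ∑ r ∈ range (n + 1), (∑ p ∈ range (P + 1), if p ≤ r then tt r p * cf (n - r) r else 0) +
      ∑ p ∈ range P, uu (p + 1) * rest (n - (p + 1)) (p + 1) := by
  rw [sum_comm, ← sum_congr rfl fun p hp => up_eq (n := n) (p := p)
    (by have := mem_range.1 hp; omega), sum_range_succ', uu_zero, one_mul, Nat.sub_zero,
    add_right_comm, ← sum_add_distrib, sum_eq_zero, zero_add]
  intro p _
  rw [← mul_add, ← ee_split, ee_ne _ (by omega), mul_zero]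

namespace Ctx

variable {j s : ℕ} (c : Ctx j s)
include c

theorem tb2 {p k n : ℕ} {r : ℤ} {g : ℚ} (hg : G2 g 0) (hp : p ≤ 3 * s)
    (hn : p + k + n = 2 * j * (3 * s) + 2) (h1 : p - r ≤ k) (h2 : r - p ≤ k)
    (hm : r.natAbs ≤ 3 * s + 1 → r.natAbs < k + p) :
    G2 (uu p * (g * al (p + r) * cf n r))
      (2 * hh j (3 * s) - j * (2 * j * (3 * s) + 2 : ℕ) + 1) := by
  obtain ⟨Q, a, b⟩ := good n r
  refine ((uu_ge p).mul ((hg.mul (al_val _).ge).mul b)).mono ?_
  have j0 : (0 : ℤ) ≤ j := by positivity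
  have hD := c.hD
  have u : ∀ E : ℤ, -2 * NN p - 2 * av (p + r) + av (2 * r) =
      hh E p + ww E r p k - E * p - E * k := by
    intro E
    unfold hh BB ww
    rw [add_comm r p]
    ring
  have sp : ∀ E : ℤ, E * ((2 * j * (3 * s) + 2 : ℕ) : ℤ) = E * p + E * k + E * n := by
    intro E
    rw [← hn]
    push_cast
    ring
  have d := hh_mono (E := EQ Q) a le_rfl
  unfold bd
  rcases lt_trichotomy (j : ℤ) (EQ Q) with hQ | hQ | hQ
  · have q := c.lt_of_le hQ.le
    have l := lip (E := EQ Q) (p := r) (r := p) le_rfl a (by omega) h2 h1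
    have m := c.high hQ le_rfl
    have o : (j : ℤ) * (3 * s + 1) ≤ EQ Q * (3 * s + 1) :=
      mul_le_mul_of_nonneg_right hQ.le (by positivity)
    have := u (EQ Q)
    have := sp (EQ Q)
    rw [Int.natAbs_natCast] at l
    rw [mul_add (j : ℤ)] at o
    omega
  · have q := c.lt_of_le hQ.le
    have e := hh_mono (E := j) (x := 3 * s) (y := Q) (by omega) hQ.ge
    have := u j
    have := sp j
    rw [← hQ] at d ⊢
    suffices H : 2 * hh j (3 * s) + 1 + hh j r.natAbs ≤ hh j p + ww j r p k + 2 * hh j Q by omega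
    rcases lt_trichotomy r.natAbs (3 * s + 1) with hr | hr | hr
    · have l := lip (E := j - 1) (p := r) (r := p) c.low (by omega) (by omega) h2 h1
      have w1 := hh_add (j - 1) 1 r.natAbs
      have w2 := hh_add (j - 1) 1 p
      have w3 := ww_add (j - 1) 1 r p k
      rw [sub_add_cancel] at w1 w2 w3
      rw [Int.natAbs_natCast] at l
      omega
    · have e1 : hh j r.natAbs = hh j (3 * s) := by rw [hr, c.h1]
      by_cases hk : p - r < k
      · have l := lip (E := j) (p := r) (r := p) (k := k - 1) hQ.ge a (by omega) (by omega)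
          (by omega)
        have w := ww_succ j r p (k - 1)
        rw [sub_add_cancel] at w
        rw [Int.natAbs_natCast] at l
        have := c.big
        omega
      · have n1 := av_nonneg (2 * r)
        have n2 := av_nonneg (2 * p)
        have n3 : av (r + p) ≤ j := (av_le (Q := Q) (by omega)).trans hQ.ge
        have n4 := hh_nonneg (y := p) (E := j) ((EQ_mono (by omega)).trans hQ.ge)
        have : (j : ℤ) * (3 * s + 2) ≤ j * k := mul_le_mul_of_nonneg_left (by omega) j0
        rw [mul_add] at this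
        unfold ww
        omega
    · have l := lip (E := j) (p := r) (r := p) hQ.ge a (by omega) h2 h1
      have m := hh_mono (E := j) (x := 3 * s + 2) (y := Q) (by omega) hQ.ge
      rw [c.h2] at m
      rw [Int.natAbs_natCast] at l
      omega
  · have q := c.le_of_lt hQ
    have w := ww_nonneg (E := j - 1) (p := r) (r := p) c.low (by omega) (by omega) h2 h1
    have n4 := hh_nonneg (y := p) (E := j - 1) ((EQ_mono hp).trans c.low)
    have n5 := hh_nonneg (y := r.natAbs) (E := EQ Q) (EQ_mono a)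
    have o : EQ Q * n ≤ (j - 1) * n := mul_le_mul_of_nonneg_right (by omega) (by positivity)
    have := u (j - 1)
    have := sp (j - 1)
    have e : ((j : ℤ) - 1) * ((2 * j * (3 * s) + 2 : ℕ) : ℤ) =
        j * ((2 * j * (3 * s) + 2 : ℕ) : ℤ) - (2 * (j * (3 * s)) + 2) := by push_cast; ring
    omega

theorem mc_val : E2 (mc (2 * j * (3 * s) + 2))
    (2 * hh j (3 * s) - j * (2 * j * (3 * s) + 2 : ℕ)) := by
  have big := c.big
  obtain ⟨m, hm⟩ : ∃ m, j * (3 * s) = 3 * s + m :=
    ⟨j * (3 * s) - 3 * s, by have : 1 * (3 * s) ≤ j * (3 * s) := Nat.mul_le_mul_right _ (by omega)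
                             omega⟩
  have hn : 2 * j * (3 * s) = 6 * s + 2 * m := by rw [mul_assoc, hm]; ring
  rw [mc_split, up_zero (P := 3 * s) (by omega),
    ← add_sum_erase (range (2 * j * (3 * s) + 1 + 1 + 1)) _ (a := 3 * s + 1) (mem_range.2 (by omega))]
  have main : E2 (∑ p ∈ range (3 * s + 1), if p ≤ 3 * s + 1 then
      tt (3 * s + 1) p * cf (2 * j * (3 * s) + 1 + 1 - (3 * s + 1)) (3 * s + 1 : ℕ) else 0)
      (2 * hh j (3 * s) - j * (2 * j * (3 * s) + 2 : ℕ)) := by
    rw [sum_congr rfl fun p hp => if_pos (by have := mem_range.1 hp; omega), ← sum_mul]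
    have h := uu_rec (p := 3 * s + 1) (by omega)
    rw [sum_range_succ, tt_self] at h
    rw [eq_neg_of_add_eq_zero_left h,
      show 2 * j * (3 * s) + 1 + 1 - (3 * s + 1) = 3 * s + 1 + 2 * m by omega]
    have x := c.exact m (by omega)
    have z' : av (2 * ((3 * s + 1 : ℕ) : ℤ)) = j := by rw [← c.av2]; congr 1; push_cast; ring
    refine ((((al_val _).mul (uu1_val s)).neg.mul x).cast ?_)
    have e : hh j (3 * s) = j * (3 * s) - 2 * NN (3 * s + 1) := by
      rw [NN1, ← NN0]
      unfold hh BB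
      rw [av_zero (by omega)]
      push_cast
      ring
    rw [z', hn]
    push_cast
    linear_combination (-1 : ℤ) * e
  refine ((E2.two.mul ((main.add ?_).add ?_)).cast (zero_add _)).add ?_
  · refine G2.sum fun r hr => ?_
    obtain ⟨r1, r2⟩ := mem_erase.1 hr
    have r2 := mem_range.1 r2
    by_cases h : r ≤ 3 * s
    · rw [← sum_filter, show (range (3 * s + 1)).filter (· ≤ r) = range (r + 1) by
        ext p; simp only [mem_filter, mem_range]; omega, ← sum_mul]
      rcases Nat.eq_zero_or_pos r with rfl | r0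
      · rw [Nat.sub_zero, Nat.cast_zero, cf_succ_zero, mul_zero]; exact G2.zero _
      · rw [uu_rec r0, zero_mul]; exact G2.zero _
    · refine G2.sum fun p hp => ?_
      have hp := mem_range.1 hp
      rw [if_pos (by omega)]
      have := c.tb2 (p := p) (k := r - p) (n := 2 * j * (3 * s) + 1 + 1 - r) (r := r)
        (bc_ge (r - p)) (by omega) (by omega) (by omega) (by omega) (by omega)
      rwa [show uu p * (bc (r - p) * al (p + r) * cf (2 * j * (3 * s) + 1 + 1 - r) r) =
        tt r p * cf (2 * j * (3 * s) + 1 + 1 - r) r by rw [tt, add_comm (r : ℤ) p]; ring] at this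
  · refine G2.sum fun p hp => ?_
    have hp := mem_range.1 hp
    rw [rest, mul_sum]
    refine G2.sum fun k hk => ?_
    have hk := mem_range.1 hk
    rw [mul_sum]
    refine G2.sum fun i hi => ?_
    have hi := mem_range.1 hi
    exact c.tb2 (p := p + 1) (k := k) (bb_ge _ _) (by omega) (by omega) (by omega) (by omega)
      (by omega)
  · refine G2.sum fun k hk => G2.sum fun i hi => ?_
    have hk := mem_range.1 hk
    have hi := mem_range.1 hi
    have := c.tb2 (p := 0) (k := k + 1) (n := 2 * j * (3 * s) + 1 - k)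
      (r := (k + 1 : ℕ) - 2 * (i + 1)) (bb_ge (i + 1) (k + 1 - (i + 1))) (by omega) (by omega)
      (by omega) (by omega) (by omega)
    rwa [uu_zero, one_mul, Nat.cast_zero, zero_add] at this

end Ctx

theorem exists_ctx (K : ℕ) : ∃ j s, Ctx j s ∧ K ≤ j := by
  have h : ∀ t : ℕ, ∃ s, 12 * s + 3 = 3 ^ (2 * t + 1) := by
    intro t
    induction t with
    | zero => exact ⟨0, by norm_num⟩
    | succ t ih =>
      obtain ⟨s, hs⟩ := ih
      exact ⟨9 * s + 2, by rw [show 2 * (t + 1) + 1 = 2 * t + 1 + 2 by ring, pow_add, ← hs]; ring⟩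
  obtain ⟨s, hs⟩ := h (K + 7)
  exact ⟨_, s, ⟨hs, by omega⟩, by omega⟩

theorem unbounded (K : ℕ) : ∃ n : ℕ, ¬ G2 (mc n) (-(K * (n + 1))) := by
  obtain ⟨j, s, c, hj⟩ := exists_ctx (K + 2)
  refine ⟨2 * j * (3 * s) + 2, fun h => ?_⟩
  have v := c.mc_val
  have a := h.resolve_left v.1
  have b := c.hD
  have p : (1 : ℤ) ≤ s := by exact_mod_cast c.pos
  have j' : (K : ℤ) + 2 ≤ j := by exact_mod_cast hj
  rw [v.2] at a
  push_cast at a
  have K0 : (0 : ℤ) ≤ K := by positivity
  have t : (K + 2 : ℤ) * (2 * j * (3 * s) + 2) ≤ j * (2 * j * (3 * s) + 2) :=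
    mul_le_mul_of_nonneg_right j' (by positivity)
  nlinarith

end Pool.Agent.Lib.MP_efb7ef_gt.P3
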