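import Pool.Agent.Lib.MP_efb7ef_gt.P3.Eis
import Pool.Agent.Lib.MP_efb7ef_gt.P3.Zero

/-! Real constants, and uniqueness of the coefficients of a real power series. -/

namespace Pool.Agent.Lib.MP_efb7ef_gt.P3

open Finset PowerSeries

theorem mc_not_mem : mk mc ∉ RR := by
  rintro ⟨K, hK⟩
  obtain ⟨n, hn⟩ := unbounded K
  exact hn (by simpa using hK n)

theorem mem_of_norm {a : ℕ → ℚ} {C : ℚ} (h : ∀ n, padicNorm 3 (a n) ≤ C ^ (n + 1)) :
    mk a ∈ RR := by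
  obtain ⟨K, hK⟩ := pow_unbounded_of_one_lt |C| (show (1 : ℚ) < 3 by norm_num)
  refine ⟨2 * K, fun n => ?_⟩
  rw [coeff_mk]
  by_cases h0 : a n = 0
  · exact Or.inl h0
  right
  have h1 : padicNorm 3 (a n) ≤ (3 : ℚ) ^ ((K * (n + 1) : ℕ) : ℤ) := by
    rw [zpow_natCast, pow_mul]
    refine (h n).trans ((le_abs_self _).trans ?_)
    rw [abs_pow]
    exact pow_le_pow_left₀ (abs_nonneg _) hK.le _
  rw [padicNorm.eq_zpow_of_nonzero h0, Nat.cast_ofNat,
    zpow_le_zpow_iff_right₀ (show (1 : ℚ) < 3 by norm_num)] at h1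
  push_cast at h1 ⊢
  linarith

/-- a rational linear functional, applied to every coefficient -/
noncomputable def Ph (φ : ℝ →ₗ[ℚ] ℚ) : ℝ⟦X⟧ →+ ℚ⟦X⟧ where
  toFun F := mk fun n => φ (coeff n F)
  map_zero' := by ext n; simp
  map_add' F G := by ext n; simp

theorem coeff_Ph (φ : ℝ →ₗ[ℚ] ℚ) (F : ℝ⟦X⟧) (n : ℕ) : coeff n (Ph φ F) = φ (coeff n F) :=
  coeff_mk n fun n => φ (coeff n F)

theorem Ph_mul (φ : ℝ →ₗ[ℚ] ℚ) (F : ℝ⟦X⟧) (G : ℚ⟦X⟧) :
    Ph φ (F * map (algebraMap ℚ ℝ) G) = Ph φ F * G := by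
  ext n
  rw [coeff_Ph, coeff_mul, coeff_mul, map_sum]
  refine sum_congr rfl fun x _ => ?_
  rw [coeff_Ph, coeff_map, mul_comm, ← Algebra.smul_def, map_smul, smul_eq_mul, mul_comm]

theorem Ph_mem {F : ℝ⟦X⟧} (hF : F ∈ Submodule.span ℝ {F : ℝ⟦X⟧ | ∃ (a : ℕ → ℚ) (C : ℚ),
    (∀ n, padicNorm 3 (a n) ≤ C ^ (n + 1)) ∧ F = mk fun n => (a n : ℝ)}) :
    ∀ φ, Ph φ F ∈ RR := by
  induction hF using Submodule.span_induction with
  | mem F hF =>
    obtain ⟨a, C, h, rfl⟩ := hF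
    intro φ
    have : Ph φ (mk fun n => (a n : ℝ)) = PowerSeries.C (φ 1) * mk a := by
      ext n
      rw [coeff_Ph, coeff_mk, coeff_C_mul, coeff_mk, mul_comm, ← smul_eq_mul, ← map_smul]
      simp
    rw [this]
    exact mul_mem (C_mem _) (mem_of_norm h)
  | zero => intro φ; rw [map_zero]; exact zero_mem _
  | add F G _ _ h1 h2 => intro φ; rw [map_add]; exact add_mem (h1 φ) (h2 φ)
  | smul t F _ h =>
    intro φ
    have : Ph φ (t • F) = Ph (φ ∘ₗ LinearMap.mulLeft ℚ t) F := by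
      ext n
      simp [coeff_Ph]
    rw [this]
    exact h _

theorem coeff_zero_eq {e : ℕ → ℝ} {δ : ℝ} (hδ : 0 < δ)
    (h : ∀ q ∈ Set.Ioo 0 δ, HasSum (fun n => e n * q ^ n) 0) :
    e 0 = 0 ∧ ∀ q ∈ Set.Ioo 0 δ, HasSum (fun n => e (n + 1) * q ^ n) 0 := by
  have key : ∀ q ∈ Set.Ioo 0 δ, HasSum (fun n => e (n + 1) * q ^ n) (-e 0 / q) := by
    intro q hq
    have a := ((hasSum_nat_add_iff' 1).2 (h q hq)).div_const q
    have q0 := hq.1.ne'
    simp only [range_one, sum_singleton, pow_zero, mul_one, zero_sub] at a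
    have e1 : (fun n => e (n + 1) * q ^ n) = fun n => e (n + 1) * q ^ (n + 1) / q := by
      funext n
      rw [pow_succ]
      field_simp
    rwa [e1]
  have h0 : e 0 = 0 := by
    have hm : δ / 2 ∈ Set.Ioo 0 δ := ⟨by positivity, by linarith⟩
    have s := (key _ hm).summable.abs
    set M := ∑' n, |e (n + 1) * (δ / 2) ^ n| with hM
    have M0 : 0 ≤ M := tsum_nonneg fun _ => abs_nonneg _
    have b : ∀ q, 0 < q → q ≤ δ / 2 → |e 0| ≤ q * M := by
      intro q q0 q1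
      have a := key q ⟨q0, by linarith⟩
      have c : |-e 0 / q| ≤ M := by
        rw [← Real.norm_eq_abs]
        refine a.norm_le_of_bounded s.hasSum fun n => ?_
        rw [Real.norm_eq_abs, abs_mul, abs_mul, abs_pow, abs_pow, abs_of_pos q0, abs_of_pos hm.1]
        gcongr
      rw [abs_div, abs_neg, abs_of_pos q0, div_le_iff₀ q0] at c
      linarith
    by_contra hne
    have p : 0 < |e 0| := abs_pos.2 hne
    have q0 : 0 < min (δ / 2) (|e 0| / (M + 1)) := lt_min hm.1 (by positivity)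
    have c := b _ q0 (min_le_left _ _)
    have d : min (δ / 2) (|e 0| / (M + 1)) * (M + 1) ≤ |e 0| :=
      (le_div_iff₀ (by positivity)).1 (min_le_right _ _)
    nlinarith
  refine ⟨h0, fun q hq => ?_⟩
  simpa [h0] using key q hq

theorem coeff_unique {δ : ℝ} (hδ : 0 < δ) (n : ℕ) : ∀ e : ℕ → ℝ,
    (∀ q ∈ Set.Ioo 0 δ, HasSum (fun n => e n * q ^ n) 0) → e n = 0 := by
  induction n with
  | zero => exact fun e h => (coeff_zero_eq hδ h).1
  | succ n ih => exact fun e h => ih (fun n => e (n + 1)) (coeff_zero_eq hδ h).2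

end Pool.Agent.Lib.MP_efb7ef_gt.P3
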