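import Pool.Agent.Lib.MP_efb7ef_gt.P3.Ade
import Pool.Agent.Lib.MP_efb7ef_gt.P3.Real

/-! The series of the `mc n` satisfies no algebraic differential equation. -/

namespace Pool.Agent.Lib.MP_efb7ef_gt.P3

open Finset PowerSeries

theorem hyper {t : ℝ} (ht : t ≠ 0) (P : MvPolynomial ℕ ℝ⟦X⟧) (hP : P ≠ 0)
    (hc : ∀ m, P.coeff m ∈ Submodule.span ℝ {F : ℝ⟦X⟧ | ∃ (a : ℕ → ℚ) (C : ℚ),
      (∀ n, padicNorm 3 (a n) ≤ C ^ (n + 1)) ∧ F = PowerSeries.mk fun n => (a n : ℝ)}) :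
    MvPolynomial.eval (fun i => (derivative ℝ)^[i] (PowerSeries.mk fun n => t * (mc n : ℝ))) P
      ≠ 0 := by
  classical
  intro h0
  have e : ∀ i, (derivative ℝ)^[i] (PowerSeries.mk fun n => t * (mc n : ℝ)) =
      C t * map (algebraMap ℚ ℝ) ((derivative ℚ)^[i] (PowerSeries.mk mc)) := by
    intro i
    ext n
    rw [coeff_C_mul, coeff_map, coeff_iterate_derivative, coeff_iterate_derivative, coeff_mk,
      coeff_mk, map_mul, map_natCast, eq_ratCast]
    ring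
  set G : (ℕ →₀ ℕ) → ℝ⟦X⟧ := fun m => t ^ (∑ i ∈ m.support, m i) • P.coeff m with hG
  obtain ⟨m0, m1⟩ := MvPolynomial.ne_zero_iff.1 hP
  obtain ⟨n, hn⟩ : ∃ n, coeff n (G m0) ≠ 0 := by
    by_contra h
    push Not at h
    exact smul_ne_zero (pow_ne_zero _ ht) m1 (show G m0 = 0 by ext n; simpa using h n)
  obtain ⟨φ, hφ⟩ : ∃ φ : ℝ →ₗ[ℚ] ℚ, φ (coeff n (G m0)) ≠ 0 := by
    by_contra h
    push Not at h
    exact hn ((Module.forall_dual_apply_eq_zero_iff ℚ _).1 h)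
  set g : (ℕ →₀ ℕ) → RR := fun m => ⟨Ph φ (G m), Ph_mem (Submodule.smul_mem _ _ (hc m)) φ⟩
    with hg
  set Q : MvPolynomial ℕ RR := ∑ m ∈ P.support, MvPolynomial.monomial m (g m) with hQ
  have q0 : Q ≠ 0 := by
    intro h
    have a : Q.coeff m0 = g m0 := by
      rw [hQ, MvPolynomial.coeff_sum]
      simp only [MvPolynomial.coeff_monomial]
      rw [sum_ite_eq', if_pos (MvPolynomial.mem_support_iff.2 m1)]
    rw [h, MvPolynomial.coeff_zero] at a
    have b : Ph φ (G m0) = 0 := congrArg Subtype.val a.symm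
    exact hφ (by rw [← coeff_Ph, b, map_zero])
  have q1 : MvPolynomial.aeval (fun i => (derivative ℚ)^[i] (PowerSeries.mk mc)) Q = 0 := by
    rw [MvPolynomial.eval_eq] at h0
    have := congrArg (Ph φ) h0
    rw [map_zero, map_sum] at this
    rw [hQ, map_sum, ← this]
    refine sum_congr rfl fun m _ => ?_
    rw [MvPolynomial.aeval_monomial]
    refine (Ph_mul φ (G m) _).symm.trans (congrArg _ ?_)
    simp only [hG, e, mul_pow, prod_mul_distrib, prod_pow_eq_pow_sum, Finsupp.prod, map_prod,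
      map_pow, smul_eq_C_mul]
    ring
  obtain ⟨r, f, hf, q, hq⟩ := MvPolynomial.exists_fin_rename Q
  rw [hq, MvPolynomial.aeval_rename] at q1
  exact mc_not_mem (mem_of_ade hf _ q rfl (fun h => q0 (by rw [hq, h, map_zero])) q1)

end Pool.Agent.Lib.MP_efb7ef_gt.P3
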