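import Pool.Agent.Lib.MP_efb7ef_gt.Ell
import Pool.Agent.Lib.MP_efb7ef_gt.P3.Hyper

/-! The magic number, as a function of `q`, satisfies no algebraic differential equation. -/

namespace Pool.Agent.Lib.MP_efb7ef_gt.P3

open PowerSeries

/-- the Taylor series at zero -/
noncomputable def TT (g : ℝ → ℝ) : ℝ⟦X⟧ := PowerSeries.mk fun n => iteratedDeriv n g 0 / n.factorial

theorem TT_add {g h : ℝ → ℝ} (hg : AnalyticAt ℝ g 0) (hh : AnalyticAt ℝ h 0) :
    TT (g + h) = TT g + TT h := by
  ext n
  simp only [TT, coeff_mk, map_add]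
  rw [iteratedDeriv_add hg.contDiffAt hh.contDiffAt, add_div]

theorem TT_mul {g h : ℝ → ℝ} (hg : AnalyticAt ℝ g 0) (hh : AnalyticAt ℝ h 0) :
    TT (g * h) = TT g * TT h := by
  ext n
  simp only [TT, coeff_mk, coeff_mul]
  rw [iteratedDeriv_mul hg.contDiffAt hh.contDiffAt, Finset.Nat.sum_antidiagonal_eq_sum_range_succ
    (fun i j => iteratedDeriv i g 0 / i.factorial * (iteratedDeriv j h 0 / j.factorial)),
    Finset.sum_div]
  refine Finset.sum_congr rfl fun i hi => ?_
  have hi : i ≤ n := Nat.lt_succ_iff.1 (Finset.mem_range.1 hi)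
  rw [Nat.cast_choose ℝ hi]
  have a : (n.factorial : ℝ) ≠ 0 := by positivity
  have b : (i.factorial : ℝ) ≠ 0 := by positivity
  have c : ((n - i).factorial : ℝ) ≠ 0 := by positivity
  field_simp

theorem TT_deriv (g : ℝ → ℝ) : TT (deriv g) = derivative ℝ (TT g) := by
  ext n
  rw [coeff_derivative]
  simp only [TT, coeff_mk]
  rw [iteratedDeriv_succ', Nat.factorial_succ]
  have a : (n.factorial : ℝ) ≠ 0 := by positivity
  push_cast
  field_simp

theorem TT_iter (g : ℝ → ℝ) (i : ℕ) : TT (iteratedDeriv i g) = (derivative ℝ)^[i] (TT g) := by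
  induction i with
  | zero => simp
  | succ i ih => rw [iteratedDeriv_succ, TT_deriv, ih, Function.iterate_succ_apply']

theorem an_iter {g : ℝ → ℝ} {x : ℝ} (hg : AnalyticAt ℝ g x) (i : ℕ) :
    AnalyticAt ℝ (iteratedDeriv i g) x := by
  induction i with
  | zero => simpa using hg
  | succ i ih => rw [iteratedDeriv_succ]; exact ih.deriv

theorem an_poly (p : Polynomial ℝ) (x : ℝ) : AnalyticAt ℝ (fun q : ℝ => p.eval q) x := by
  induction p using Polynomial.induction_on' with
  | add p q hp hq => simpa only [Polynomial.eval_add] using hp.fun_add hq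
  | monomial n a =>
    simp only [Polynomial.eval_monomial]
    fun_prop

theorem TT_poly (p : Polynomial ℝ) : TT (fun q : ℝ => p.eval q) = (p : ℝ⟦X⟧) := by
  induction p using Polynomial.induction_on' with
  | add p q hp hq =>
    have : (fun x : ℝ => (p + q).eval x) = (fun x : ℝ => p.eval x) + fun x : ℝ => q.eval x := by
      funext x
      simp
    rw [this, TT_add (an_poly p 0) (an_poly q 0), hp, hq, Polynomial.coe_add]
  | monomial n a =>
    simp only [Polynomial.eval_monomial]
    ext k
    rw [Polynomial.coe_monomial, coeff_monomial, TT, coeff_mk, iteratedDeriv_const_mul_field,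
      iteratedDeriv_pow]
    split_ifs with h
    · subst h
      have a : (k.factorial : ℝ) ≠ 0 := by positivity
      simp [Nat.descFactorial_self, a]
    · rcases lt_or_gt_of_ne h with h | h
      · simp [Nat.sub_ne_zero_of_lt h]
      · simp [Nat.descFactorial_eq_zero_iff_lt.2 h]

theorem an_eval {f : ℝ → ℝ} {x : ℝ} (hf : AnalyticAt ℝ f x) (P : MvPolynomial ℕ (Polynomial ℝ)) :
    AnalyticAt ℝ (fun q => MvPolynomial.eval₂ (Polynomial.evalRingHom q)
      (fun i => iteratedDeriv i f q) P) x := by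
  induction P using MvPolynomial.induction_on with
  | C c => simpa using an_poly c x
  | add p q h1 h2 =>
    simp only [MvPolynomial.eval₂_add]
    exact h1.add h2
  | mul_X p j h =>
    simp only [MvPolynomial.eval₂_mul, MvPolynomial.eval₂_X]
    exact h.mul (an_iter hf j)

theorem TT_eval {f : ℝ → ℝ} (hf : AnalyticAt ℝ f 0) (P : MvPolynomial ℕ (Polynomial ℝ)) :
    TT (fun q => MvPolynomial.eval₂ (Polynomial.evalRingHom q) (fun i => iteratedDeriv i f q) P) =
      MvPolynomial.eval₂ Polynomial.coeToPowerSeries.ringHom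
        (fun i => (derivative ℝ)^[i] (TT f)) P := by
  induction P using MvPolynomial.induction_on with
  | C c => simpa using TT_poly c
  | add p q h1 h2 =>
    simp only [MvPolynomial.eval₂_add]
    rw [← h1, ← h2, ← TT_add (an_eval hf p) (an_eval hf q)]
    rfl
  | mul_X p j h =>
    simp only [MvPolynomial.eval₂_mul, MvPolynomial.eval₂_X]
    rw [← h, ← TT_iter, ← TT_mul (an_eval hf p) (an_iter hf j)]
    rfl

theorem poly_mem (p : Polynomial ℝ) : (p : ℝ⟦X⟧) ∈ Submodule.span ℝ
    {F : ℝ⟦X⟧ | ∃ (a : ℕ → ℚ) (C : ℚ),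
      (∀ n, padicNorm 3 (a n) ≤ C ^ (n + 1)) ∧ F = PowerSeries.mk fun n => (a n : ℝ)} := by
  induction p using Polynomial.induction_on' with
  | add p q hp hq => rw [Polynomial.coe_add]; exact add_mem hp hq
  | monomial k a =>
    rw [Polynomial.coe_monomial, monomial_eq_C_mul_X_pow, ← smul_eq_C_mul]
    refine Submodule.smul_mem _ _ (Submodule.subset_span
      ⟨fun n => if n = k then 1 else 0, 1, fun n => ?_, ?_⟩)
    · by_cases h : n = k <;> simp [h]
    · ext n
      rw [coeff_X_pow, coeff_mk]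
      by_cases h : n = k <;> simp [h]

theorem fun_form (M : ℝ → ℝ) {α β : ℝ} (h0 : 0 ≤ α) (h1 : α < β) (h2 : β ≤ 11 / 25)
    (hM : ∀ q ∈ Set.Ioo α β, IsMagic (ellipse (1 + q) (1 - q)) (M q))
    (P : MvPolynomial ℕ (Polynomial ℝ)) (hP : P ≠ 0) :
    ∃ q ∈ Set.Ioo α β, MvPolynomial.eval₂ (Polynomial.evalRingHom q)
      (fun i => iteratedDeriv i M q) P ≠ 0 := by
  by_contra hz
  push Not at hz
  set c : ℕ → ℝ := fun n => 4 / Real.pi * (mc n : ℝ) with hc
  set p := FormalMultilinearSeries.ofScalars ℝ c with hp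
  have rad : ((23 / 50 : NNReal) : ENNReal) ≤ p.radius := by
    refine p.le_radius_of_summable ?_
    have := ((summable_mc (q := 23 / 50) (by norm_num) le_rfl).mul_left (4 / Real.pi)).abs
    refine this.congr fun n => ?_
    rw [hp, FormalMultilinearSeries.ofScalars_norm, ← mul_assoc, abs_mul, abs_pow, Real.norm_eq_abs]
    norm_num [hc]
  have hb := p.hasFPowerSeriesOnBall (lt_of_lt_of_le (by norm_num) rad)
  have an : ∀ x ∈ Set.Ioo (-(23 / 50) : ℝ) (23 / 50), AnalyticAt ℝ p.sum x := fun x hx => by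
    refine hb.analyticAt_of_mem (lt_of_lt_of_le ?_ rad)
    rw [edist_zero_right, ← ofReal_norm, ENNReal.ofReal_lt_coe_iff (norm_nonneg _),
      Real.norm_eq_abs, abs_lt]
    simpa using hx
  have an0 := an 0 ⟨by norm_num, by norm_num⟩
  have e : ∀ q, p.sum q = ∑' n, c n * q ^ n := fun q => by
    have := FormalMultilinearSeries.ofScalars_sum_eq (E := ℝ) c q
    simp only [smul_eq_mul] at this
    exact this
  have tt : TT p.sum = PowerSeries.mk c := by
    have := an0.hasFPowerSeriesAt.eq_formalMultilinearSeries hb.hasFPowerSeriesAt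
    have := FormalMultilinearSeries.ofScalars_series_injective ℝ ℝ this
    rw [TT, this]
  have eqM : ∀ q ∈ Set.Ioo α β, M q = p.sum q := by
    intro q hq
    have q0 := hq.1
    have q1 := hq.2
    have := hM q hq
    rw [series (by linarith) (by linarith) (by linarith),
      show (1 + q - (1 - q)) / (1 + q + (1 - q)) = q by field_simp; ring,
      show 2 * (1 + q + (1 - q)) = 4 by ring, ← tsum_mul_left] at this
    rw [this, e]
    simp only [hc, mul_assoc]
  have z : ∀ q ∈ Set.Ioo α β, MvPolynomial.eval₂ (Polynomial.evalRingHom q)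
      (fun i => iteratedDeriv i p.sum q) P = 0 := by
    intro q hq
    rw [← hz q hq]
    congr 1
    funext i
    exact (Filter.EventuallyEq.iteratedDeriv_eq i
      (Filter.eventually_of_mem (isOpen_Ioo.mem_nhds hq) eqM)).symm
  have mid : (α + β) / 2 ∈ Set.Ioo α β := ⟨by linarith, by linarith⟩
  have all := AnalyticOnNhd.eqOn_zero_of_preconnected_of_eventuallyEq_zero
    (U := Set.Ioo (-(23 / 50) : ℝ) (23 / 50)) (fun x hx => an_eval (an x hx) P)
    isPreconnected_Ioo (z₀ := (α + β) / 2) ⟨by linarith, by linarith⟩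
    (Filter.eventually_of_mem (isOpen_Ioo.mem_nhds mid) z)
  have ev : (fun q => MvPolynomial.eval₂ (Polynomial.evalRingHom q)
      (fun i => iteratedDeriv i p.sum q) P) =ᶠ[nhds 0] fun _ => (0 : ℝ) :=
    Filter.eventually_of_mem (isOpen_Ioo.mem_nhds ⟨by norm_num, by norm_num⟩) all
  refine hyper (t := 4 / Real.pi) (by positivity)
    (MvPolynomial.map Polynomial.coeToPowerSeries.ringHom P)
    (fun h => hP (MvPolynomial.map_injective _ (Polynomial.coe_injective ℝ) (by simpa using h)))
    (fun i => by rw [MvPolynomial.coeff_map]; exact poly_mem _) ?_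
  rw [MvPolynomial.eval_map, ← hc, ← tt, ← TT_eval an0]
  ext n
  rw [TT, coeff_mk, Filter.EventuallyEq.iteratedDeriv_eq n ev]
  simp

end Pool.Agent.Lib.MP_efb7ef_gt.P3
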