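import Pool.Agent.Lib.MP_efb7ef_gt.P3.Pot

/-! The general bound for the array `cf`, and exact valuations on its diagonal. -/

namespace Pool.Agent.Lib.MP_efb7ef_gt.P3

open Finset

/-- the bound for a contribution whose largest index is `Q` -/
def bd (Q n : ℕ) (p : ℤ) : ℤ :=
  2 * hh (EQ Q) Q - hh (EQ Q) p.natAbs - EQ Q * n + av (2 * p)

/-- the invariant of the recursion -/
def Good (n : ℕ) (p : ℤ) (x : ℚ) : Prop := ∃ Q : ℕ, p.natAbs ≤ Q ∧ G2 x (bd Q n p)

theorem Good.zero (n : ℕ) (p : ℤ) : Good n p 0 := ⟨_, le_rfl, G2.zero _⟩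

theorem Good.add {n : ℕ} {p : ℤ} {x y : ℚ} (hx : Good n p x) (hy : Good n p y) :
    Good n p (x + y) := by
  obtain ⟨Q, a, b⟩ := hx
  obtain ⟨Q', a', b'⟩ := hy
  rcases le_total (bd Q n p) (bd Q' n p) with h | h
  · exact ⟨Q, a, b.add (b'.mono h)⟩
  · exact ⟨Q', a', (b.mono h).add b'⟩

theorem Good.sum {ι : Type} {s : Finset ι} {f : ι → ℚ} {n : ℕ} {p : ℤ}
    (h : ∀ i ∈ s, Good n p (f i)) : Good n p (∑ i ∈ s, f i) :=
  Finset.sum_induction f (Good n p) (fun _ _ => Good.add) (Good.zero n p) h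

theorem term_ge {g x : ℚ} {m : ℤ} (hg : G2 g 0) (hx : G2 x m) (p r : ℤ) :
    G2 (-(g * al (p + r) * x) / al (2 * p)) (m - 2 * av (p + r) + 2 * av (2 * p)) :=
  (((hg.mul (al_val (p + r)).ge).mul hx).neg.div (al_val (2 * p))).mono (by omega)

theorem Good.step {n k : ℕ} {p r : ℤ} {g x : ℚ} (hx : Good n r x) (hn : r.natAbs ≤ n)
    (hg : G2 g 0) (h1 : p - r ≤ k) (h2 : r - p ≤ k) :
    Good (n + k) p (-(g * al (p + r) * x) / al (2 * p)) := by
  obtain ⟨Q, a, b⟩ := hx
  by_cases h : p.natAbs ≤ Q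
  · refine ⟨Q, h, (term_ge hg b p r).mono ?_⟩
    have c := lip (E := EQ Q) le_rfl a h h2 h1
    rw [ww_comm] at c
    unfold bd ww at *
    push_cast
    rw [mul_add]
    omega
  · refine ⟨p.natAbs, le_rfl, (term_ge hg b p r).mono ?_⟩
    have c := lip (E := EQ p.natAbs) (Q := p.natAbs) le_rfl le_rfl (r := r) (by omega) h1 h2
    have d := hh_mono (E := EQ Q) a le_rfl
    obtain ⟨t, ht⟩ : ∃ t, EQ p.natAbs = EQ Q + t := ⟨EQ p.natAbs - EQ Q, by ring⟩
    have t0 : 0 ≤ t := by have := EQ_mono (Q := Q) (Q' := p.natAbs) (by omega); omega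
    have e := hh_add (EQ Q) t r.natAbs
    have f : t * (r.natAbs : ℤ) ≤ t * n := mul_le_mul_of_nonneg_left (by omega) t0
    have f' : EQ p.natAbs * n = EQ Q * n + t * n := by rw [ht]; ring
    rw [← ht] at e
    unfold bd ww at *
    rw [Nat.cast_add, mul_add]
    omega

theorem cf_ne {n : ℕ} {r : ℤ} (h : cf n r ≠ 0) : r.natAbs ≤ n := by
  by_contra h'
  exact h (cf_supp n r (Or.inl (by rw [lt_abs]; omega)))

theorem cf_succ' (n : ℕ) {p : ℤ} (hp : p ≠ 0) : cf (n + 1) p =
    ∑ k ∈ range (n + 1), ∑ i ∈ range (k + 2),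
      -(bc i * bc (k + 1 - i) * al (p + (p + (k + 1 - 2 * i))) *
        cf (n - k) (p + (k + 1 - 2 * i))) / al (2 * p) := by
  rw [cf_succ n hp, ← sum_neg_distrib, sum_div]
  refine sum_congr rfl fun k _ => ?_
  rw [← sum_neg_distrib, sum_div]
  refine sum_congr rfl fun i _ => ?_
  congr 4
  ring_nf

theorem bb_ge (i l : ℕ) : G2 (bc i * bc l) 0 := (bc_ge i).mul (bc_ge l)

theorem good (n : ℕ) : ∀ p : ℤ, Good n p (cf n p) := by
  induction n using Nat.strong_induction_on with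
  | _ n ih =>
    intro p
    cases n with
    | zero =>
      rw [cf_zero]
      split_ifs with h
      · subst h
        refine ⟨0, le_rfl, E2.one.ge.mono ?_⟩
        simp [bd, hh_zero, av_zero]
      · exact Good.zero _ _
    | succ n =>
      by_cases hp : p = 0
      · rw [hp, cf_succ_zero]; exact Good.zero _ _
      rw [cf_succ' n hp]
      refine Good.sum fun k hk => Good.sum fun i hi => ?_
      have hk := mem_range.1 hk
      have hi := mem_range.1 hi
      by_cases h0 : cf (n - k) (p + (k + 1 - 2 * i)) = 0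
      · rw [h0]; simpa using Good.zero _ _
      have := (ih (n - k) (by omega) _).step (k := k + 1) (p := p) (cf_ne h0) (bb_ge i (k + 1 - i))
        (by omega) (by omega)
      rwa [show n - k + (k + 1) = n + 1 by omega] at this

/-- the diagonal coefficients -/
def uu (p : ℕ) : ℚ := cf p p

theorem uu_zero : uu 0 = 1 := by simp [uu, cf_zero]

theorem uu_ge (p : ℕ) : G2 (uu p) (-2 * NN p) := by
  obtain ⟨Q, a, b⟩ := good p p
  refine b.mono ?_
  have c := hh_mono (E := EQ Q) a le_rfl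
  simp only [Int.natAbs_natCast] at c
  unfold bd
  simp only [Int.natAbs_natCast]
  have d : hh (EQ Q) p = EQ Q * p - (2 * NN p + av (2 * p)) := rfl
  omega

/-- the terms of the diagonal recursion -/
def tt (p r : ℕ) : ℚ := bc (p - r) * al (p + r) * uu r

theorem uu_rec {p : ℕ} (hp : 1 ≤ p) : ∑ r ∈ range (p + 1), tt p r = 0 := by
  rw [← ee_ne p (p := p) (by omega), ee, ← sum_range_reflect]
  refine sum_congr rfl fun k hk => ?_
  have hk := mem_range.1 hk
  rw [sum_range_succ, sum_eq_zero, zero_add, Nat.sub_self, bc_zero, mul_one, tt, uu]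
  · have e1 : p + 1 - 1 - k = p - k := by omega
    have e2 : p - (p - k) = k := by omega
    have e3 : ((p - k : ℕ) : ℤ) = p + (k - 2 * k) := by omega
    rw [e1, e2, e3]
    congr 3
    ring
  · intro i hi
    have hi := mem_range.1 hi
    rw [cf_supp _ _ (Or.inl (by rw [lt_abs]; omega)), mul_zero]

theorem tt_ge (p r : ℕ) : G2 (tt p r) (-2 * (NN r + av (p + r))) :=
  (((bc_ge _).mul (al_val _).ge).mul (uu_ge r)).mono (by omega)

theorem tt_strict {p r : ℕ} (h : r < p)
    (h' : ¬ ((r % 3 ≠ 1 ∧ p = r + 1) ∨ (r % 3 ≠ 2 ∧ p = r + 2))) :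
    G2 (tt p r) (-2 * (NN p + av (2 * p)) + 2) := by
  have := up_strict h
  rw [if_neg h'] at this
  exact (tt_ge p r).mono (by omega)

theorem tt_self (p : ℕ) : tt p p = al (2 * p) * uu p := by
  rw [tt, Nat.sub_self, bc_zero, one_mul, two_mul]

theorem uu1 (s : ℕ) : ∃ x, G2 x (-2 * NN (3 * s) + 2) ∧
    uu (3 * s + 1) = -(bc 1 * al (6 * s + 1) / al (6 * s + 2)) * uu (3 * s) + x := by
  have h := uu_rec (p := 3 * s + 1) (by omega)
  rw [sum_range_succ, sum_range_succ, tt_self, tt] at h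
  have e1 : (2 * ((3 * s + 1 : ℕ) : ℤ)) = 6 * s + 2 := by push_cast; ring
  have e2 : (((3 * s + 1 : ℕ) : ℤ) + (3 * s : ℕ)) = 6 * s + 1 := by push_cast; ring
  rw [e1, e2, show 3 * s + 1 - 3 * s = 1 by omega] at h
  refine ⟨-(∑ r ∈ range (3 * s), tt (3 * s + 1) r) / al (6 * s + 2), ?_, ?_⟩
  · refine ((G2.sum fun r hr => tt_strict ?_ ?_).neg.div (al_val _)).mono ?_
    · have := mem_range.1 hr; omega
    · have := mem_range.1 hr; omega
    · rw [e1, NN1, NN0]; omega
  · have := al_ne (6 * s + 2)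
    field_simp
    linear_combination h

theorem uu2 (s : ℕ) : ∃ x, G2 x (-2 * NN (3 * s + 2) + 2) ∧
    uu (3 * s + 2) = -(bc 2 * al (6 * s + 2) / al (6 * s + 4)) * uu (3 * s) + x := by
  have h := uu_rec (p := 3 * s + 2) (by omega)
  rw [sum_range_succ, sum_range_succ, sum_range_succ, tt_self, tt.eq_1 _ (3 * s)] at h
  have e1 : (2 * ((3 * s + 2 : ℕ) : ℤ)) = 6 * s + 4 := by push_cast; ring
  have e2 : (((3 * s + 2 : ℕ) : ℤ) + (3 * s : ℕ)) = 6 * s + 2 := by push_cast; ring
  rw [e1, e2, show 3 * s + 2 - 3 * s = 2 by omega] at h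
  refine ⟨-(∑ r ∈ range (3 * s), tt (3 * s + 2) r + tt (3 * s + 2) (3 * s + 1)) / al (6 * s + 4),
    ?_, ?_⟩
  · refine (((G2.sum fun r hr => tt_strict ?_ ?_).add (tt_strict ?_ ?_)).neg.div
      (al_val _)).mono ?_
    · have := mem_range.1 hr; omega
    · have := mem_range.1 hr; omega
    · omega
    · omega
    · rw [e1]; omega
  · have := al_ne (6 * s + 4)
    field_simp
    linear_combination h

theorem kk_val (s : ℕ) :
    E2 (al (6 * s + 5) * al (6 * s + 2) / al (6 * s + 4) +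
      al (6 * s + 4) * al (6 * s + 1) / al (6 * s + 2)) (2 - 2 * ev (2 * s) - 2 * ev (2 * s + 1)) := by
  have h3 : E2 3 2 := by
    have := E2.int (z := 3) (by norm_num)
    have h : padicValInt 3 3 = 1 := by
      have := three
      exact padicValInt.self (by norm_num)
    rw [h] at this
    exact_mod_cast this
  have hW := E2.unit (z := (12 * s + 7) ^ 2 * (12 * s + 1) * (4 * s + 3) +
    (12 * s + 5) ^ 2 * (12 * s + 11) * (4 * s + 1)) (by
      intro h
      have : (3 : ℤ) ∣ 2 := by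
        have e : ((12 * s + 7) ^ 2 * (12 * s + 1) * (4 * s + 3) +
          (12 * s + 5) ^ 2 * (12 * s + 11) * (4 * s + 1) : ℤ) =
          2 + 3 * (4608 * s ^ 4 + 9216 * s ^ 3 + 6336 * s ^ 2 + 1728 * s + 140) := by ring
        rw [e] at h
        exact (Int.dvd_add_left (dvd_mul_right _ _)).1 h
      omega)
  have h7 := E2.unit (z := 12 * s + 7) (by omega)
  have h5 := E2.unit (z := 12 * s + 5) (by omega)
  have a1 := al_val (6 * s + 1)
  have a5 := al_val (6 * s + 5)
  rw [av_one (t := 2 * s) (by push_cast; ring)] at a1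
  rw [av_two (t := 2 * s + 1) (by push_cast; ring)] at a5
  have key := (((h3.mul hW).mul (a1.mul a5)).div (h5.mul h7)).neg
  have e : al (6 * s + 5) * al (6 * s + 2) / al (6 * s + 4) +
      al (6 * s + 4) * al (6 * s + 1) / al (6 * s + 2) =
      -(3 * (((12 * s + 7) ^ 2 * (12 * s + 1) * (4 * s + 3) +
        (12 * s + 5) ^ 2 * (12 * s + 11) * (4 * s + 1) : ℤ) : ℚ) *
        (al (6 * s + 1) * al (6 * s + 5)) / (((12 * s + 5 : ℤ) : ℚ) * ((12 * s + 7 : ℤ) : ℚ))) := by
    have b1 : al (6 * s + 1) = -1 / ((12 * s + 1) * (12 * s + 3)) := by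
      rw [al, ← neg_div_neg_eq]; push_cast; congr 1; ring
    have b2 : al (6 * s + 2) = -1 / ((12 * s + 3) * (12 * s + 5)) := by
      rw [al, ← neg_div_neg_eq]; push_cast; congr 1; ring
    have b4 : al (6 * s + 4) = -1 / ((12 * s + 7) * (12 * s + 9)) := by
      rw [al, ← neg_div_neg_eq]; push_cast; congr 1; ring
    have b5 : al (6 * s + 5) = -1 / ((12 * s + 9) * (12 * s + 11)) := by
      rw [al, ← neg_div_neg_eq]; push_cast; congr 1; ring
    rw [b1, b2, b4, b5]
    push_cast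
    field_simp
    ring
  rw [e]
  exact key.cast (by ring)

theorem uu0_val (s : ℕ) : E2 (uu (3 * s)) (-2 * NN (3 * s)) := by
  induction s with
  | zero =>
    rw [uu_zero]
    exact E2.one.cast (by simp [NN, sg_zero])
  | succ s ih =>
    obtain ⟨x, hx, e1⟩ := uu1 s
    obtain ⟨y, hy, e2⟩ := uu2 s
    have h := uu_rec (p := 3 * s + 3) (by omega)
    rw [sum_range_succ, sum_range_succ, sum_range_succ, tt_self, tt.eq_1 _ (3 * s + 1),
      tt.eq_1 _ (3 * s + 2)] at h
    have c1 : (((3 * s + 3 : ℕ) : ℤ) + (3 * s + 1 : ℕ)) = 6 * s + 4 := by push_cast; ring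
    have c2 : (((3 * s + 3 : ℕ) : ℤ) + (3 * s + 2 : ℕ)) = 6 * s + 5 := by push_cast; ring
    rw [c1, c2, show 3 * s + 3 - (3 * s + 1) = 2 by omega,
      show 3 * s + 3 - (3 * s + 2) = 1 by omega, e1, e2] at h
    have a4 := al_val (6 * s + 4)
    have a5 := al_val (6 * s + 5)
    have a6 := al_val (2 * ((3 * s + 3 : ℕ) : ℤ))
    have z6 : av (2 * ((3 * s + 3 : ℕ) : ℤ)) = 0 := av_zero (by omega)
    rw [av_one (t := 2 * s + 1) (by push_cast; ring)] at a4
    rw [av_two (t := 2 * s + 1) (by push_cast; ring)] at a5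
    have m := (((bc_one.mul bc_two).mul (kk_val s)).mul ih).cast
      (m' := -2 * NN (3 * s + 3)) (by rw [NN3, NN0]; ring)
    have o := one_le_ev (2 * s)
    have r1 : G2 (∑ r ∈ range (3 * s + 1), tt (3 * s + 3) r) (-2 * NN (3 * s + 3) + 1) := by
      refine G2.sum fun r hr => (tt_strict ?_ ?_).mono ?_
      · have := mem_range.1 hr; omega
      · have := mem_range.1 hr; omega
      · rw [z6]; omega
    have r2 : G2 (bc 2 * al (6 * s + 4) * x) (-2 * NN (3 * s + 3) + 1) :=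
      (((bc_ge 2).mul a4.ge).mul hx).mono (by rw [NN3, NN0]; omega)
    have r3 : G2 (bc 1 * al (6 * s + 5) * y) (-2 * NN (3 * s + 3) + 1) :=
      (((bc_ge 1).mul a5.ge).mul hy).mono (by rw [NN3, NN2]; omega)
    have f := (m.add ((r1.add r2).add r3).neg).div a6
    have e : uu (3 * (s + 1)) = (bc 1 * bc 2 * (al (6 * s + 5) * al (6 * s + 2) / al (6 * s + 4) +
        al (6 * s + 4) * al (6 * s + 1) / al (6 * s + 2)) * uu (3 * s) +
        -(∑ r ∈ range (3 * s + 1), tt (3 * s + 3) r + bc 2 * al (6 * s + 4) * x +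
          bc 1 * al (6 * s + 5) * y)) / al (2 * ((3 * s + 3 : ℕ) : ℤ)) := by
      rw [eq_div_iff (al_ne _), show 3 * (s + 1) = 3 * s + 3 by ring]
      linear_combination h
    rw [e]
    exact f.cast (by rw [z6, show 3 * (s + 1) = 3 * s + 3 by ring]; ring)

theorem uu1_val (s : ℕ) : E2 (uu (3 * s + 1)) (-2 * NN (3 * s + 1)) := by
  obtain ⟨x, hx, e⟩ := uu1 s
  have a1 := al_val (6 * s + 1)
  have a2 := al_val (6 * s + 2)
  rw [av_one (t := 2 * s) (by push_cast; ring)] at a1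
  rw [av_two (t := 2 * s) (by push_cast; ring)] at a2
  have m := (((bc_one.mul a1).div a2).neg.mul (uu0_val s)).cast (m' := -2 * NN (3 * s)) (by ring)
  rw [e]
  exact (m.add (hx.mono (by omega))).cast (by rw [NN1, NN0])

end Pool.Agent.Lib.MP_efb7ef_gt.P3
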