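import Pool.Agent.Lib.MP_efb7ef_gt.P3.Val

/-! The potential that bounds the valuations along the recursion. -/

namespace Pool.Agent.Lib.MP_efb7ef_gt.P3

open Finset

/-- partial sums of `ev` -/
def sg (t : ℕ) : ℤ := ∑ i ∈ range t, ev i

theorem sg_succ (t : ℕ) : sg (t + 1) = sg t + ev t := sum_range_succ _ _

theorem sg_zero : sg 0 = 0 := rfl

theorem sg_ge {s t : ℕ} (h : s ≤ t) : sg s + (t - s : ℤ) ≤ sg t := by
  induction h with
  | refl => simp
  | step _ ih => rw [sg_succ]; have := one_le_ev ‹ℕ›; push_cast; omega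

theorem sg_ge' {s u t : ℕ} (h1 : s ≤ u) (h2 : u < t) : sg s + ev u + (t - s - 1 : ℤ) ≤ sg t := by
  have a := sg_ge h1
  have b := sg_ge (s := u + 1) h2
  rw [sg_succ] at b
  push_cast at b
  omega

theorem sg_rec (t : ℕ) : sg t = t + sg ((t + 1) / 3) := by
  induction t with
  | zero => rfl
  | succ t ih =>
    rw [sg_succ, ih]
    by_cases h : t % 3 = 1
    · obtain ⟨u, rfl⟩ : ∃ u, t = 3 * u + 1 := ⟨t / 3, by omega⟩
      rw [ev_rec, show (3 * u + 1 + 1 + 1) / 3 = u + 1 by omega,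
        show (3 * u + 1 + 1) / 3 = u by omega, sg_succ]
      push_cast
      ring
    · rw [ev_of_ne h, show (t + 1 + 1) / 3 = (t + 1) / 3 by omega]
      push_cast
      ring

theorem sg_le (t : ℕ) : sg t ≤ 2 * t := by
  induction t using Nat.strong_induction_on with
  | _ t ih =>
    rcases Nat.eq_zero_or_pos t with rfl | h
    · simp [sg_zero]
    · have := ih ((t + 1) / 3) (by omega)
      rw [sg_rec]
      omega

/-- bound for the denominator of the diagonal coefficient -/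
def NN (p : ℕ) : ℤ := sg (2 * (p / 3) + p % 3 / 2) - (p / 3 + p % 3 / 2 : ℕ)

theorem NN0 (s : ℕ) : NN (3 * s) = sg (2 * s) - s := by
  rw [NN, show 3 * s / 3 = s by omega, show 3 * s % 3 / 2 = 0 by omega]; simp

theorem NN1 (s : ℕ) : NN (3 * s + 1) = sg (2 * s) - s := by
  rw [NN, show (3 * s + 1) / 3 = s by omega, show (3 * s + 1) % 3 / 2 = 0 by omega]; simp

theorem NN2 (s : ℕ) : NN (3 * s + 2) = sg (2 * s) + ev (2 * s) - s - 1 := by
  rw [NN, show (3 * s + 2) / 3 = s by omega, show (3 * s + 2) % 3 / 2 = 1 by omega, sg_succ]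
  push_cast
  ring

theorem NN3 (s : ℕ) : NN (3 * s + 3) = sg (2 * s) + ev (2 * s) + ev (2 * s + 1) - s - 1 := by
  rw [show 3 * s + 3 = 3 * (s + 1) by ring, NN0, show 2 * (s + 1) = 2 * s + 1 + 1 by ring, sg_succ,
    sg_succ]
  push_cast
  ring

theorem MM (p : ℕ) : NN p + av (2 * p) = sg (2 * (p / 3) + p % 3) - (p / 3 + p % 3 / 2 : ℕ) := by
  rw [NN]
  obtain h3 | h3 | h3 : p % 3 = 0 ∨ p % 3 = 1 ∨ p % 3 = 2 := by omega
  · rw [av_zero (by omega), h3]; simp
  · rw [av_two (t := 2 * (p / 3)) (by omega), h3, sg_succ]; simp; ring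
  · rw [av_one (t := 2 * (p / 3) + 1) (by omega), h3, sg_succ (2 * (p / 3) + 1)]; simp; ring

/-- the inequality for a step upwards, strict off four families -/
theorem up_strict {r p : ℕ} (h : r < p) :
    NN r + av (p + r) + (if (r % 3 ≠ 1 ∧ p = r + 1) ∨ (r % 3 ≠ 2 ∧ p = r + 2) then 0 else 1) ≤
      NN p + av (2 * p) := by
  rw [MM, NN]
  by_cases h0 : (p + r) % 3 = 0
  · rw [av_zero (by omega)]
    have := sg_ge (s := 2 * (r / 3) + r % 3 / 2) (t := 2 * (p / 3) + p % 3) (by omega)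
    split_ifs <;> omega
  · have e : av (p + r) = ev ((p + r) / 3) := by
      obtain h3 | h3 : (p + r) % 3 = 1 ∨ (p + r) % 3 = 2 := by omega
      · exact av_one (by omega)
      · exact av_two (by omega)
    have := sg_ge' (s := 2 * (r / 3) + r % 3 / 2) (u := (p + r) / 3) (t := 2 * (p / 3) + p % 3)
      (by omega) (by omega)
    rw [e]
    split_ifs <;> omega

theorem up_le {r p : ℕ} (h : r < p) : NN r + av (p + r) ≤ NN p + av (2 * p) := by
  have := up_strict h
  split_ifs at this <;> omega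

/-- symmetric form of the bound -/
def BB (p : ℕ) : ℤ := 2 * NN p + av (2 * p)

theorem BB_zero : BB 0 = 0 := by
  rw [BB, av_zero (by norm_num)]
  simp [NN, sg_zero]

theorem BB_step0 (s : ℕ) : BB (3 * s + 1) = BB (3 * s) + ev (2 * s) := by
  rw [BB, BB, NN0, NN1, av_two (t := 2 * s) (by push_cast; ring), av_zero (by omega)]
  ring

theorem BB_step1 (s : ℕ) : BB (3 * s + 2) = BB (3 * s + 1) + ev (2 * s) + ev (2 * s + 1) - 2 := by
  rw [BB, BB, NN2, NN1, av_one (t := 2 * s + 1) (by push_cast; ring),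
    av_two (t := 2 * s) (by push_cast; ring)]
  ring

theorem BB_step2 (s : ℕ) : BB (3 * s + 3) = BB (3 * s + 2) + ev (2 * s + 1) := by
  rw [BB, BB, NN3, NN2, av_zero (by omega), av_one (t := 2 * s + 1) (by push_cast; ring)]
  ring

theorem ev_min (t : ℕ) : ev t = 1 ∨ ev (t + 1) = 1 := by
  by_cases h : t % 3 = 1
  · exact Or.inr (ev_of_ne (by omega))
  · exact Or.inl (ev_of_ne h)

theorem BB_step (p : ℕ) : BB p ≤ BB (p + 1) ∧ BB (p + 1) ≤ BB p + EQ (p + 1) := by
  obtain ⟨s, rfl | rfl | rfl⟩ : ∃ s, p = 3 * s ∨ p = 3 * s + 1 ∨ p = 3 * s + 2 :=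
    ⟨p / 3, by omega⟩
  · have := one_le_ev (2 * s)
    have := ev_le (t := 2 * s) (Q := 3 * s + 1) (by omega)
    rw [BB_step0]
    omega
  · have := one_le_ev (2 * s)
    have := one_le_ev (2 * s + 1)
    have := ev_le (t := 2 * s) (Q := 3 * s + 1 + 1) (by omega)
    have := ev_le (t := 2 * s + 1) (Q := 3 * s + 1 + 1) (by omega)
    have := ev_min (2 * s)
    rw [BB_step1]
    omega
  · have := one_le_ev (2 * s + 1)
    have := ev_le (t := 2 * s + 1) (Q := 3 * s + 2 + 1) (by omega)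
    rw [BB_step2]
    omega

theorem BB_mono {x y : ℕ} (h : x ≤ y) : BB x ≤ BB y := by
  induction h with
  | refl => exact le_rfl
  | step _ ih => exact ih.trans (BB_step _).1

theorem BB_nonneg (x : ℕ) : 0 ≤ BB x := BB_zero ▸ BB_mono (Nat.zero_le x)

theorem BB_lip {x y : ℕ} {E : ℤ} (h : x ≤ y) (hE : EQ y ≤ E) : BB y ≤ BB x + E * (y - x) := by
  induction h with
  | refl => simp
  | @step y _ ih =>
    have a := ih ((EQ_mono (Nat.le_succ y)).trans hE)
    have b := (BB_step y).2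
    have c : E * ((y + 1 : ℕ) - x : ℤ) = E * (y - x) + E := by push_cast; ring
    change BB (y + 1) ≤ BB x + E * ((y + 1 : ℕ) - x : ℤ)
    change EQ (y + 1) ≤ E at hE
    omega

theorem BB_le (p : ℕ) : BB p ≤ 4 * p := by
  have a := MM p
  have b := sg_le (2 * (p / 3) + p % 3)
  have c := av_nonneg (2 * p)
  rw [BB]
  omega

theorem BB_one : BB 1 = av 2 := by
  have := NN1 0
  rw [BB, this]
  simp [sg_zero]

/-- the potential for the slope `E` -/
def hh (E : ℤ) (p : ℕ) : ℤ := E * p - BB p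

theorem hh_zero (E : ℤ) : hh E 0 = 0 := by simp [hh, BB_zero]

theorem hh_mono {x y : ℕ} {E : ℤ} (h : x ≤ y) (hE : EQ y ≤ E) : hh E x ≤ hh E y := by
  have := BB_lip h hE
  rw [mul_sub] at this
  unfold hh
  omega

theorem hh_nonneg {y : ℕ} {E : ℤ} (hE : EQ y ≤ E) : 0 ≤ hh E y :=
  hh_zero E ▸ hh_mono (Nat.zero_le y) hE

theorem hh_le (E : ℤ) (p : ℕ) : hh E p ≤ E * p := by
  have := BB_nonneg p
  unfold hh
  omega

theorem hh_add (E d : ℤ) (p : ℕ) : hh (E + d) p = hh E p + d * p := by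
  unfold hh
  ring

/-- the cost of a step -/
def ww (E p r k : ℤ) : ℤ := E * k - 2 * av (p + r) + av (2 * p) + av (2 * r)

theorem ww_comm (E p r k : ℤ) : ww E p r k = ww E r p k := by
  unfold ww
  rw [add_comm p r]
  ring

theorem ww_add (E d p r k : ℤ) : ww (E + d) p r k = ww E p r k + d * k := by
  unfold ww
  ring

theorem ww_succ (E p r k : ℤ) : ww E p r (k + 1) = ww E p r k + E := by
  unfold ww
  ring

theorem lip_same {x y Q : ℕ} {E k : ℤ} (hE : EQ Q ≤ E) (hx : x ≤ Q) (hy : y ≤ Q)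
    (h1 : (x : ℤ) - y ≤ k) (h2 : (y : ℤ) - x ≤ k) : hh E x ≤ hh E y + ww E x y k := by
  have E0 : 0 ≤ E := (EQ_nonneg Q).trans hE
  have a1 := av_nonneg (2 * x)
  have a2 := av_nonneg (2 * y)
  have a3 : av (x + y) ≤ E := (av_le (Q := Q) (by omega)).trans hE
  unfold hh ww
  rcases lt_trichotomy x y with h | rfl | h
  · have b := BB_lip h.le ((EQ_mono hy).trans hE)
    rw [mul_sub] at b
    by_cases h' : y = x + 1
    · subst h'
      have c := av_step x
      have d : E * 1 ≤ E * k := mul_le_mul_of_nonneg_left (by omega) E0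
      have e1 : ((x : ℤ) + (x + 1 : ℕ)) = 2 * x + 1 := by push_cast; ring
      have e2 : (2 * ((x + 1 : ℕ) : ℤ)) = 2 * x + 2 := by push_cast; ring
      have e3 : E * ((x + 1 : ℕ) : ℤ) = E * x + E := by push_cast; ring
      rw [e1] at a3 ⊢
      rw [e2]
      omega
    · have d : E * 2 ≤ E * k := mul_le_mul_of_nonneg_left (by omega) E0
      have d' : E * x ≤ E * y := mul_le_mul_of_nonneg_left (by omega) E0
      omega
  · have d : 0 ≤ E * k := mul_nonneg E0 (by omega)
    rw [← two_mul]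
    omega
  · have b := up_le h
    have d : E * (x - y) ≤ E * k := mul_le_mul_of_nonneg_left h1 E0
    rw [mul_sub] at d
    unfold BB
    omega

theorem lip_opp {x y Q : ℕ} {E k : ℤ} (hE : EQ Q ≤ E) (hx : x ≤ Q) (hy : y ≤ Q) (x1 : 1 ≤ x)
    (y1 : 1 ≤ y) (h1 : (x : ℤ) + y ≤ k) :
    hh E x ≤ hh E y + (E * k - 2 * av (x - y) + av (2 * x) + av (2 * y)) := by
  have E0 : 0 ≤ E := (EQ_nonneg Q).trans hE
  have a1 := av_nonneg (2 * x)
  have a2 := av_nonneg (2 * y)
  have a3 : av (x - y) ≤ E := (av_le (Q := Q) (by omega)).trans hE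
  have d : E * (x + y) ≤ E * k := mul_le_mul_of_nonneg_left h1 E0
  rw [mul_add] at d
  by_cases h : y = 1
  · subst h
    have b := BB_mono x1
    unfold hh
    simp only [Nat.cast_one, mul_one] at *
    omega
  · have b := hh_nonneg ((EQ_mono hy).trans hE)
    have c := hh_le E x
    have d' : E * 2 ≤ E * y := mul_le_mul_of_nonneg_left (by omega) E0
    omega

/-- the potential is Lipschitz for the cost of the steps -/
theorem lip {p r : ℤ} {Q : ℕ} {E k : ℤ} (hE : EQ Q ≤ E) (hp : p.natAbs ≤ Q) (hr : r.natAbs ≤ Q)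
    (h1 : p - r ≤ k) (h2 : r - p ≤ k) : hh E p.natAbs ≤ hh E r.natAbs + ww E p r k := by
  have s1 : av (2 * (p.natAbs : ℤ)) = av (2 * p) := by
    rw [← av_abs (2 * p)]; congr 1; omega
  have s2 : av (2 * (r.natAbs : ℤ)) = av (2 * r) := by
    rw [← av_abs (2 * r)]; congr 1; omega
  by_cases h : (0 ≤ p ∧ 0 ≤ r) ∨ (p ≤ 0 ∧ r ≤ 0)
  · have := lip_same (x := p.natAbs) (y := r.natAbs) (k := k) hE hp hr (by omega) (by omega)
    have s3 : av ((p.natAbs : ℤ) + r.natAbs) = av (p + r) := by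
      rw [← av_abs (p + r)]; congr 1; omega
    unfold ww at this ⊢
    rwa [s1, s2, s3] at this
  · have := lip_opp (x := p.natAbs) (y := r.natAbs) (k := k) hE hp hr (by omega) (by omega)
      (by omega)
    have s3 : av ((p.natAbs : ℤ) - r.natAbs) = av (p + r) := by
      rw [← av_abs (p + r), ← av_abs]; congr 1; omega
    unfold ww
    rwa [s1, s2, s3] at this

theorem ww_nonneg {p r : ℤ} {Q : ℕ} {E k : ℤ} (hE : EQ Q ≤ E) (hp : p.natAbs ≤ Q)
    (hr : r.natAbs ≤ Q) (h1 : p - r ≤ k) (h2 : r - p ≤ k) : 0 ≤ ww E p r k := by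
  have a := lip hE hp hr h1 h2
  have b := lip hE hr hp h2 h1
  rw [ww_comm] at b
  omega

end Pool.Agent.Lib.MP_efb7ef_gt.P3
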