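import Pool.Agent.Lib.MP_efb7ef_gt.Magic

/-! Bounds for the 3-adic valuation, and the valuations of `bc` and `al`. -/

namespace Pool.Agent.Lib.MP_efb7ef_gt.P3

open Finset

/-- twice the 3-adic valuation is at least `m` -/
def G2 (x : ℚ) (m : ℤ) : Prop := x = 0 ∨ m ≤ 2 * padicValRat 3 x

/-- twice the 3-adic valuation equals `m` -/
def E2 (x : ℚ) (m : ℤ) : Prop := x ≠ 0 ∧ 2 * padicValRat 3 x = m

theorem three : Fact (Nat.Prime 3) := ⟨Nat.prime_three⟩

theorem G2.zero (m : ℤ) : G2 0 m := Or.inl rfl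

theorem G2.mono {x : ℚ} {m m' : ℤ} (h : G2 x m) (hm : m' ≤ m) : G2 x m' :=
  h.imp id fun h => hm.trans h

theorem E2.ge {x : ℚ} {m : ℤ} (h : E2 x m) : G2 x m := Or.inr h.2.ge

theorem E2.cast {x : ℚ} {m m' : ℤ} (h : E2 x m) (hm : m = m') : E2 x m' := hm ▸ h

theorem G2.neg {x : ℚ} {m : ℤ} (h : G2 x m) : G2 (-x) m :=
  h.imp (fun h => by rw [h, neg_zero]) fun h => by rwa [padicValRat.neg]

theorem E2.neg {x : ℚ} {m : ℤ} (h : E2 x m) : E2 (-x) m :=
  ⟨neg_ne_zero.2 h.1, by rw [padicValRat.neg]; exact h.2⟩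

theorem G2.add {x y : ℚ} {m : ℤ} (hx : G2 x m) (hy : G2 y m) : G2 (x + y) m := by
  have := three
  by_cases h : x + y = 0
  · exact Or.inl h
  rcases hx with rfl | hx
  · rwa [zero_add]
  rcases hy with rfl | hy
  · rw [add_zero]; exact Or.inr hx
  have := padicValRat.min_le_padicValRat_add (p := 3) h
  right
  omega

theorem G2.sum {ι : Type} {s : Finset ι} {f : ι → ℚ} {m : ℤ} (h : ∀ i ∈ s, G2 (f i) m) :
    G2 (∑ i ∈ s, f i) m :=
  Finset.sum_induction f (fun x => G2 x m) (fun _ _ => G2.add) (G2.zero m) h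

theorem E2.mul {x y : ℚ} {m m' : ℤ} (hx : E2 x m) (hy : E2 y m') : E2 (x * y) (m + m') := by
  have := three
  refine ⟨mul_ne_zero hx.1 hy.1, ?_⟩
  rw [padicValRat.mul hx.1 hy.1, mul_add, hx.2, hy.2]

theorem G2.mul {x y : ℚ} {m m' : ℤ} (hx : G2 x m) (hy : G2 y m') : G2 (x * y) (m + m') := by
  have := three
  by_cases h1 : x = 0
  · rw [h1, zero_mul]; exact G2.zero _
  by_cases h2 : y = 0
  · rw [h2, mul_zero]; exact G2.zero _
  have a := hx.resolve_left h1
  have b := hy.resolve_left h2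
  right
  rw [padicValRat.mul h1 h2]
  omega

theorem E2.inv {x : ℚ} {m : ℤ} (hx : E2 x m) : E2 x⁻¹ (-m) := by
  have := three
  refine ⟨inv_ne_zero hx.1, ?_⟩
  rw [padicValRat.inv, ← hx.2]
  ring

theorem E2.div {x y : ℚ} {m m' : ℤ} (hx : E2 x m) (hy : E2 y m') : E2 (x / y) (m - m') := by
  rw [div_eq_mul_inv, sub_eq_add_neg]; exact hx.mul hy.inv

theorem G2.div {x y : ℚ} {m m' : ℤ} (hx : G2 x m) (hy : E2 y m') : G2 (x / y) (m - m') := by
  rw [div_eq_mul_inv, sub_eq_add_neg]; exact hx.mul hy.inv.ge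

theorem E2.add {x y : ℚ} {m : ℤ} (hx : E2 x m) (hy : G2 y (m + 1)) : E2 (x + y) m := by
  have := three
  by_cases h2 : y = 0
  · rwa [h2, add_zero]
  have b := hy.resolve_left h2
  have a := hx.2
  have h : x + y ≠ 0 := by
    intro h
    have : y = -x := by linarith
    rw [this, padicValRat.neg] at b
    omega
  refine ⟨h, ?_⟩
  rw [padicValRat.add_eq_of_lt h hx.1 h2 (by omega)]
  exact a

theorem E2.int {z : ℤ} (hz : z ≠ 0) : E2 (z : ℚ) (2 * padicValInt 3 z) :=
  ⟨by exact_mod_cast hz, by rw [padicValRat.of_int]⟩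

theorem E2.unit {z : ℤ} (hz : ¬ (3 : ℤ) ∣ z) : E2 (z : ℚ) 0 := by
  have h : z ≠ 0 := by rintro rfl; exact hz (dvd_zero _)
  refine (E2.int h).cast ?_
  rw [padicValInt.eq_zero_of_not_dvd (by exact_mod_cast hz)]
  rfl

theorem G2.int (z : ℤ) : G2 (z : ℚ) 0 := by
  by_cases h : z = 0
  · rw [h]; exact Or.inl (by simp)
  · exact (E2.int h).ge.mono (by positivity)

theorem E2.one : E2 1 0 := by exact_mod_cast E2.unit (z := 1) (by decide)

theorem E2.two : E2 2 0 := by exact_mod_cast E2.unit (z := 2) (by decide)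

theorem E2.two_pow (n : ℕ) : E2 (2 ^ n) 0 := by
  induction n with
  | zero => exact E2.one
  | succ n ih => rw [pow_succ]; exact ih.mul E2.two

theorem bc_catalan (i : ℕ) : bc (i + 1) = -(catalan i : ℚ) / 2 ^ (2 * i + 1) := by
  induction i with
  | zero => rw [bc, bc]; norm_num
  | succ i ih =>
    have h1 : ((i : ℚ) + 1) * catalan i = Nat.centralBinom i := by
      exact_mod_cast succ_mul_catalan_eq_centralBinom i
    have h2 : ((i : ℚ) + 1 + 1) * catalan (i + 1) = Nat.centralBinom (i + 1) := by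
      exact_mod_cast succ_mul_catalan_eq_centralBinom (i + 1)
    have h3 : ((i : ℚ) + 1) * Nat.centralBinom (i + 1) = 2 * (2 * i + 1) * Nat.centralBinom i := by
      exact_mod_cast Nat.succ_mul_centralBinom_succ i
    have h4 : ((i : ℚ) + 2) * catalan (i + 1) = 2 * (2 * i + 1) * catalan i := by
      have : ((i : ℚ) + 1) ≠ 0 := by positivity
      apply mul_left_cancel₀ this
      rw [← h2, ← h1] at h3
      linarith
    rw [bc, ih]
    push_cast
    field_simp
    linear_combination (2 : ℚ) ^ (2 * i) * 4 * h4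

theorem bc_ge (i : ℕ) : G2 (bc i) 0 := by
  cases i with
  | zero => rw [bc]; exact E2.one.ge
  | succ i =>
    rw [bc_catalan]
    have h : G2 (catalan i : ℚ) 0 := by exact_mod_cast G2.int (catalan i)
    exact h.neg.div (E2.two_pow _)

theorem bc_zero : bc 0 = 1 := by rw [bc]

theorem bc_one : E2 (bc 1) 0 := by
  have : bc 1 = -(1 / 2) := by rw [bc, bc]; norm_num
  rw [this]
  exact (E2.one.div E2.two).neg

theorem bc_two : E2 (bc 2) 0 := by
  have : bc 2 = -(1 / 2 ^ 3) := by rw [bc, bc, bc]; norm_num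
  rw [this]
  exact (E2.one.div (E2.two_pow 3)).neg

/-- the valuation of `4 k ^ 2 - 1` -/
def av (k : ℤ) : ℤ := padicValInt 3 (2 * k - 1) + padicValInt 3 (2 * k + 1)

/-- the valuation of `6 t + 3` -/
def ev (t : ℕ) : ℤ := padicValNat 3 (6 * t + 3)

theorem al_val (k : ℤ) : E2 (al k) (-2 * av k) := by
  have h1 := E2.int (z := 2 * k - 1) (by omega)
  have h2 := E2.int (z := 2 * k + 1) (by omega)
  have : al k = -(1 / (((2 * k - 1 : ℤ) : ℚ) * ((2 * k + 1 : ℤ) : ℚ))) := by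
    rw [al, ← neg_div_neg_eq, neg_div]
    push_cast
    congr 2
    ring
  rw [this]
  refine (E2.one.div (h1.mul h2)).neg.cast ?_
  rw [av]
  ring

theorem av_nonneg (k : ℤ) : 0 ≤ av k := by rw [av]; positivity

theorem av_neg (k : ℤ) : av (-k) = av k := by
  have h1 : (2 * -k - 1).natAbs = (2 * k + 1).natAbs := by omega
  have h2 : (2 * -k + 1).natAbs = (2 * k - 1).natAbs := by omega
  simp only [av, padicValInt, h1, h2]
  ring

theorem pv_zero {z : ℤ} (hz : z % 3 ≠ 0) : (padicValInt 3 z : ℤ) = 0 := by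
  rw [padicValInt.eq_zero_of_not_dvd (by omega)]
  rfl

theorem av_zero {k : ℤ} (hk : k % 3 = 0) : av k = 0 := by
  rw [av, pv_zero (by omega), pv_zero (by omega), add_zero]

theorem av_one {k : ℤ} {t : ℕ} (hk : k = 3 * t + 1) : av k = ev t := by
  have h : (2 * k + 1).natAbs = 6 * t + 3 := by omega
  rw [av, pv_zero (by omega), zero_add, padicValInt, h, ev]

theorem av_two {k : ℤ} {t : ℕ} (hk : k = 3 * t + 2) : av k = ev t := by
  have h : (2 * k - 1).natAbs = 6 * t + 3 := by omega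
  rw [av, pv_zero (z := 2 * k + 1) (by omega), add_zero, padicValInt, h, ev]

theorem ev_eq (t : ℕ) : ev t = 1 + padicValNat 3 (2 * t + 1) := by
  have := three
  rw [ev, show 6 * t + 3 = 3 * (2 * t + 1) by ring, padicValNat.mul (by norm_num) (by omega),
    padicValNat.self (by norm_num)]
  push_cast
  rfl

theorem one_le_ev (t : ℕ) : 1 ≤ ev t := by rw [ev_eq]; omega

theorem ev_of_ne {t : ℕ} (h : t % 3 ≠ 1) : ev t = 1 := by
  rw [ev_eq, padicValNat.eq_zero_of_not_dvd (by omega)]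
  rfl

theorem ev_rec (t : ℕ) : ev (3 * t + 1) = 1 + ev t := by
  rw [ev_eq, show 2 * (3 * t + 1) + 1 = 6 * t + 3 by ring, ev]

/-- the largest valuation met by indices of size at most `Q` -/
def EQ (Q : ℕ) : ℤ := Nat.log 3 (4 * Q + 1)

theorem EQ_mono {Q Q' : ℕ} (h : Q ≤ Q') : EQ Q ≤ EQ Q' := by
  unfold EQ
  exact_mod_cast Nat.log_mono_right (by omega)

theorem EQ_nonneg (Q : ℕ) : 0 ≤ EQ Q := by unfold EQ; positivity

theorem ev_le {t Q : ℕ} (h : 6 * t + 3 ≤ 4 * Q + 1) : ev t ≤ EQ Q := by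
  have := three
  unfold ev EQ
  exact_mod_cast (padicValNat_le_nat_log _).trans (Nat.log_mono_right h)

theorem av_le_nat {k Q : ℕ} (h : k ≤ 2 * Q) : av k ≤ EQ Q := by
  obtain h3 | h3 | h3 : k % 3 = 0 ∨ k % 3 = 1 ∨ k % 3 = 2 := by omega
  · rw [av_zero (by omega)]; exact EQ_nonneg Q
  · rw [av_one (t := k / 3) (by omega)]; exact ev_le (by omega)
  · rw [av_two (t := k / 3) (by omega)]; exact ev_le (by omega)

theorem av_abs (k : ℤ) : av k.natAbs = av k := by
  rcases Int.natAbs_eq k with h | h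
  · rw [← h]
  · rw [← av_neg, ← h]

theorem av_le {k : ℤ} {Q : ℕ} (h : k.natAbs ≤ 2 * Q) : av k ≤ EQ Q := by
  rw [← av_abs]; exact av_le_nat h

theorem av_step (x : ℕ) : av (2 * x + 1) ≤ av (2 * x) + av (2 * x + 2) := by
  have h1 := av_nonneg (2 * x)
  have h2 := av_nonneg (2 * x + 2)
  obtain h3 | h3 | h3 : x % 3 = 0 ∨ x % 3 = 1 ∨ x % 3 = 2 := by omega
  · rw [av_one (t := 2 * (x / 3)) (by omega), av_two (k := 2 * x + 2) (t := 2 * (x / 3)) (by omega)]
    omega
  · rw [av_zero (by omega)]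
    omega
  · rw [av_two (t := 2 * (x / 3) + 1) (by omega),
      av_one (k := 2 * x) (t := 2 * (x / 3) + 1) (by omega)]
    omega

end Pool.Agent.Lib.MP_efb7ef_gt.P3
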